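import Pool.Agent.TH992.V.Low3

/-!
Lower tail of the volume of the largest cluster: upper bound.
-/

set_option autoImplicit false

namespace TH992.V

open H974 Finset Filter Topology TH992.T
open Pool.Agent.H160R2.CV

/-- centres of the boxes -/
def ct (n m j : ℕ) : ℤ := -(n : ℤ) + (2 * (m : ℤ) + 1) * j + m

/-- edges of a box -/
noncomputable def SC (n m : ℕ) (q : ℕ × ℕ) : Finset Edg :=
  RE (ct n m q.1 - m) (ct n m q.1 + m) (ct n m q.2 - m) (ct n m q.2 + m)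

theorem SC_eq (n m : ℕ) (q : ℕ × ℕ) :
    SC n m q = (trl (ct n m q.1) (ct n m q.2)).mp (boxE m) := by
  unfold boxE SC
  rw [trl_RE]
  congr 1 <;> ring

/-- the event in a box -/
def BC (N : ℝ) (n m : ℕ) (q : ℕ × ℕ) (F : Finset Edg) : Prop :=
  Big N m ((trl (-ct n m q.1) (-ct n m q.2)).mp F)

theorem Big_loc {N : ℝ} {m : ℕ} {F : Finset Edg} : Big N m F ↔ Big N m (F ∩ boxE m) := by
  unfold Big
  rw [coe_inter_eq (Finset.Subset.refl _)]

theorem BC_loc {N : ℝ} {n m : ℕ} {q : ℕ × ℕ} {F : Finset Edg} :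
    BC N n m q F ↔ BC N n m q (F ∩ SC n m q) := by
  unfold BC
  rw [LSym.mp_inter, SC_eq, trl_trl]
  exact Big_loc

theorem ct_in {n m K j : ℕ} (hK : (2 * m + 1) * K ≤ 2 * n + 1) (hj : j < K) :
    -(n : ℤ) ≤ ct n m j - m ∧ ct n m j + m ≤ n := by
  have h1 : (2 * m + 1) * (j + 1) ≤ 2 * n + 1 := (Nat.mul_le_mul_left _ hj).trans hK
  have h2 : (2 * (m : ℤ) + 1) * j + (2 * m + 1) ≤ 2 * n + 1 := by
    have : (2 * (m : ℤ) + 1) * (j + 1) ≤ 2 * n + 1 := by exact_mod_cast h1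
    linarith
  have h3 : 0 ≤ (2 * (m : ℤ) + 1) * j := by positivity
  unfold ct
  generalize (2 * (m : ℤ) + 1) * j = t at h2 h3 ⊢
  omega

theorem ct_lt {n m i j : ℕ} (hij : i < j) : ct n m i + m < ct n m j - m := by
  have h1 : (2 * m + 1) * (i + 1) ≤ (2 * m + 1) * j := Nat.mul_le_mul_left _ hij
  have h2 : (2 * (m : ℤ) + 1) * i + (2 * m + 1) ≤ (2 * (m : ℤ) + 1) * j := by
    have : (2 * (m : ℤ) + 1) * (i + 1) ≤ (2 * (m : ℤ) + 1) * j := by exact_mod_cast h1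
    linarith
  unfold ct
  generalize (2 * (m : ℤ) + 1) * i = s at h2 ⊢
  generalize (2 * (m : ℤ) + 1) * j = t at h2 ⊢
  omega

theorem SC_sub {n m K : ℕ} (hK : (2 * m + 1) * K ≤ 2 * n + 1) {q : ℕ × ℕ}
    (h1 : q.1 < K) (h2 : q.2 < K) : SC n m q ⊆ boxE n := by
  have a1 := ct_in hK h1
  have a2 := ct_in hK h2
  unfold SC boxE
  apply RE_subset <;> omega

theorem SC_disj {n m : ℕ} {q q' : ℕ × ℕ} (h : q ≠ q') :
    Disjoint (SC n m q) (SC n m q') := by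
  rw [Finset.disjoint_left]
  have key : q.1 < q'.1 ∨ q'.1 < q.1 ∨ q.2 < q'.2 ∨ q'.2 < q.2 := by
    by_contra hcon
    push Not at hcon
    apply h
    ext <;> omega
  unfold SC
  rintro ⟨x, y, _ | _⟩ h8 h9
  · simp only [mem_RE_false] at h8 h9
    rcases key with k | k | k | k
    · have := ct_lt (n := n) (m := m) k; omega
    · have := ct_lt (n := n) (m := m) k; omega
    · have := ct_lt (n := n) (m := m) k; omega
    · have := ct_lt (n := n) (m := m) k; omega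
  · simp only [mem_RE_true] at h8 h9
    rcases key with k | k | k | k
    · have := ct_lt (n := n) (m := m) k; omega
    · have := ct_lt (n := n) (m := m) k; omega
    · have := ct_lt (n := n) (m := m) k; omega
    · have := ct_lt (n := n) (m := m) k; omega

theorem BC_big {N : ℝ} {n m K : ℕ} (hK : (2 * m + 1) * K ≤ 2 * n + 1) {q : ℕ × ℕ}
    (h1 : q.1 < K) (h2 : q.2 < K) {F : Finset Edg} (h : BC N n m q F) : Big N n F := by
  have hsub := SC_sub hK h1 h2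
  have a1 := ct_in hK h1
  have a2 := ct_in hK h2
  obtain ⟨v, hv, T, hT, hr⟩ := h
  have key : ∀ u w : Vtx,
      Reach (↑((trl (-ct n m q.1) (-ct n m q.2)).mp F) ∩ ↑(boxE m)) u w →
      Reach (↑F ∩ ↑(boxE n)) ((trl (ct n m q.1) (ct n m q.2)).ψ u)
        ((trl (ct n m q.1) (ct n m q.2)).ψ w) := by
    intro u w huw
    have h4 := (trl (ct n m q.1) (ct n m q.2)).reach huw
    refine h4.mono ?_
    rw [LSym.image_inter, ← SC_eq]
    rintro e ⟨he1, he2⟩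
    refine ⟨?_, by exact_mod_cast hsub (by exact_mod_cast he2)⟩
    have : (trl (ct n m q.1) (ct n m q.2)).mp ((trl (-ct n m q.1) (-ct n m q.2)).mp F) = F := by
      have := trl_trl (-ct n m q.1) (-ct n m q.2) F
      simpa using this
    rw [this] at he1
    exact he1
  refine ⟨(trl (ct n m q.1) (ct n m q.2)).ψ v, ?_,
    T.map (trl (ct n m q.1) (ct n m q.2)).ψ.toEmbedding, ?_, ?_⟩
  · obtain ⟨a, b⟩ := v
    unfold bx at hv ⊢
    rw [trl_ψ]
    simp only [Finset.mem_product, Finset.mem_Icc] at hv ⊢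
    omega
  · rwa [Finset.card_map]
  · intro u hu
    rw [Finset.mem_map] at hu
    obtain ⟨w, hw, rfl⟩ := hu
    exact key _ _ (hr w hw)

theorem pr_BC {N : ℝ} {n m K : ℕ} (hK : (2 * m + 1) * K ≤ 2 * n + 1) {q : ℕ × ℕ}
    (h1 : q.1 < K) (h2 : q.2 < K) :
    Pr P (boxE n) (BC N n m q) = Pr P (boxE m) (Big N m) := by
  have h3 : Pr P (boxE n) (BC N n m q) = Pr P (SC n m q) (BC N n m q) :=
    Pr_local (SC_sub hK h1 h2) (fun F _ => BC_loc (F := F))
  rw [h3, SC_eq]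
  unfold P
  rw [LSym.pr]
  apply Pr_congr
  intro F _
  unfold BC
  rw [trl_trl]

theorem ind_not {A : Prop} : ind (¬ A) = 1 - ind A := by
  by_cases h : A
  · rw [ind_of h, ind_not_of (not_not.mpr h)]; ring
  · rw [ind_not_of h, ind_of h]; ring

/-- no large cluster -/
theorem none_le {N : ℝ} {n m K : ℕ} (hK : (2 * m + 1) * K ≤ 2 * n + 1) :
    Pr P (boxE n) (fun F => ¬ Big N n F) ≤ (1 - Pr P (boxE m) (Big N m)) ^ (K * K) := by
  obtain ⟨J, hJ⟩ : ∃ J : Finset (ℕ × ℕ), J = range K ×ˢ range K := ⟨_, rfl⟩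
  have hmem : ∀ q ∈ J, q.1 < K ∧ q.2 < K := by
    intro q hq
    rw [hJ, mem_product, mem_range, mem_range] at hq
    exact hq
  have h1 : Pr P (boxE n) (fun F => ¬ Big N n F) ≤
      Ex P (boxE n) (fun F => ∏ q ∈ J, ind (¬ BC N n m q F)) := by
    unfold Pr
    refine Ex_mono w_ok fun F _ => ?_
    by_cases hB : Big N n F
    · rw [ind_not_of (not_not.mpr hB)]
      exact prod_nonneg fun _ _ => ind_nonneg _
    · have : ∏ q ∈ J, ind (¬ BC N n m q F) = 1 := by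
        refine prod_eq_one fun q hq => ?_
        exact ind_of fun h => hB (BC_big hK (hmem q hq).1 (hmem q hq).2 h)
      rw [this]
      exact ind_le_one _
  refine h1.trans (le_of_eq ?_)
  rw [Ex_prod_indep J (SC n m) (fun q hq => SC_sub hK (hmem q hq).1 (hmem q hq).2)
    (fun q _ q' _ h => SC_disj h) (fun q F => ind (¬ BC N n m q F))
    (fun q _ F _ => by
      have := BC_loc (N := N) (n := n) (m := m) (q := q) (F := F)
      simp only [propext this])]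
  have h2 : ∀ q ∈ J, Ex P (boxE n) (fun F => ind (¬ BC N n m q F)) =
      1 - Pr P (boxE m) (Big N m) := by
    intro q hq
    have h3 : Ex P (boxE n) (fun F => ind (¬ BC N n m q F)) =
        Pr P (boxE n) (fun F => ¬ BC N n m q F) := rfl
    rw [h3, Pr_not, pr_BC hK (hmem q hq).1 (hmem q hq).2]
  rw [prod_congr rfl h2, prod_const, hJ, card_product, card_range]

/-- Upper bound for the lower tail of the volume of the largest cluster. -/
theorem lt_up (h : ArSharp) : ∃ c : ℝ, 0 < c ∧ ∀ n : ℕ, 1 ≤ n → ∀ y : ℝ,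
    (n : ℝ) ^ (-(91/48) : ℝ) ≤ y → y ≤ 1 →
    Pr P (boxE n) (fun F => ¬ Big (2 * y * (n : ℝ) ^ (91/48 : ℝ)) n F) ≤
      3 * Real.exp (-(c * y ^ (-(96/91) : ℝ))) := by
  obtain ⟨a1, A1, ha1, hA1, har⟩ := h
  obtain ⟨c1, hc1, n0, hlow⟩ := max_lower1
  have hc11 : c1 ≤ 1 := (hlow n0 le_rfl).trans (Pr_le_one w_ok _ _)
  obtain ⟨D, hD⟩ : ∃ D : ℝ, D = (2 / (c1 * a1)) ^ (48/91 : ℝ) := ⟨_, rfl⟩
  have hD0 : 0 < D := by rw [hD]; positivity
  obtain ⟨B, hB⟩ : ∃ B : ℝ, B = n0 + D + 2 := ⟨_, rfl⟩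
  have hn00 : (0 : ℝ) ≤ n0 := Nat.cast_nonneg _
  have hB2 : 2 ≤ B := by rw [hB]; linarith
  refine ⟨c1 / (9 * B ^ 2), by positivity, fun n hn y hy hy1 => ?_⟩
  have hn0' : (0 : ℝ) < n := by exact_mod_cast hn
  have hy0 : 0 < y := lt_of_lt_of_le (Real.rpow_pos_of_pos hn0' _) hy
  obtain ⟨Y, hY⟩ : ∃ Y : ℝ, Y = y ^ (48/91 : ℝ) := ⟨_, rfl⟩
  have hY0 : 0 < Y := by rw [hY]; exact Real.rpow_pos_of_pos hy0 _
  have hYy : Y ^ (91/48 : ℝ) = y := by
    rw [hY, ← Real.rpow_mul hy0.le]; norm_num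
  have hY1 : 1 ≤ n * Y := by
    have h1 : ((n : ℝ) ^ (-(91/48) : ℝ)) ^ (48/91 : ℝ) ≤ Y := by
      rw [hY]
      exact Real.rpow_le_rpow (Real.rpow_nonneg hn0'.le _) hy (by norm_num)
    rw [← Real.rpow_mul hn0'.le] at h1
    have h2 : (-(91/48) * (48/91) : ℝ) = -1 := by norm_num
    rw [h2, Real.rpow_neg_one] at h1
    calc (1 : ℝ) = n * (n : ℝ)⁻¹ := by field_simp
      _ ≤ n * Y := mul_le_mul_of_nonneg_left h1 hn0'.le
  have hYe : y ^ (-(96/91) : ℝ) = (Y ^ 2)⁻¹ := by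
    rw [hY, ← Real.rpow_natCast, ← Real.rpow_mul hy0.le, ← Real.rpow_neg hy0.le]
    norm_num
  rw [hYe]
  -- the scale
  obtain ⟨m, hm⟩ : ∃ m : ℕ, m = n0 + (⌈D * (n * Y)⌉₊ + 1) := ⟨_, rfl⟩
  have hm1 : 1 ≤ m := by omega
  have hmR : (1 : ℝ) ≤ m := by exact_mod_cast hm1
  have hm0 : (0 : ℝ) < m := by linarith
  have hmge : D * (n * Y) ≤ m := by
    have h1 := Nat.le_ceil (D * (n * Y))
    have h2 : (m : ℝ) = n0 + ((⌈D * (n * Y)⌉₊ : ℝ) + 1) := by rw [hm]; push_cast; ring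
    linarith
  have hmle : (m : ℝ) ≤ B * (n * Y) := by
    have h1 := (Nat.ceil_lt_add_one (show 0 ≤ D * (n * Y) by positivity)).le
    have h2 : (m : ℝ) = n0 + ((⌈D * (n * Y)⌉₊ : ℝ) + 1) := by rw [hm]; push_cast; ring
    rw [h2, hB]
    nlinarith
  have hsize : 2 * y * (n : ℝ) ^ (91/48 : ℝ) ≤ c1 * ((m : ℝ) ^ 2 * ar m) := by
    have h1 := (har m hm1).1
    have h2 : (m : ℝ) ^ 2 * (m : ℝ) ^ (-(5 / 48 : ℝ)) = (m : ℝ) ^ (91/48 : ℝ) := by
      rw [← Real.rpow_natCast, ← Real.rpow_add hm0]; norm_num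
    have h3 : (m : ℝ) ^ (91/48 : ℝ) * a1 ≤ (m : ℝ) ^ 2 * ar m := by
      have := mul_le_mul_of_nonneg_left h1 (show 0 ≤ (m : ℝ) ^ 2 by positivity)
      rw [← h2]
      linarith
    have h4 : (2 / (c1 * a1)) * ((n : ℝ) ^ (91/48 : ℝ) * y) ≤ (m : ℝ) ^ (91/48 : ℝ) := by
      calc (2 / (c1 * a1)) * ((n : ℝ) ^ (91/48 : ℝ) * y)
          = (D * (n * Y)) ^ (91/48 : ℝ) := by
            rw [Real.mul_rpow hD0.le (by positivity), Real.mul_rpow hn0'.le hY0.le, hYy, hD,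
              ← Real.rpow_mul (by positivity)]
            norm_num
        _ ≤ _ := Real.rpow_le_rpow (by positivity) hmge (by norm_num)
    have h5 : c1 * ((2 / (c1 * a1)) * ((n : ℝ) ^ (91/48 : ℝ) * y) * a1) ≤
        c1 * ((m : ℝ) ^ 2 * ar m) := by
      refine mul_le_mul_of_nonneg_left (le_trans ?_ h3) hc1.le
      exact mul_le_mul_of_nonneg_right h4 ha1.le
    refine le_trans (le_of_eq ?_) h5
    field_simp
  -- number of boxes
  obtain ⟨K, hK⟩ : ∃ K : ℕ, K = (2 * n + 1) / (2 * m + 1) := ⟨_, rfl⟩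
  have hK1 : (2 * m + 1) * K ≤ 2 * n + 1 := by rw [hK]; exact Nat.mul_div_le _ _
  have hK2 : 2 * n + 1 < (2 * m + 1) * (K + 1) := by
    rw [hK]; exact Nat.lt_mul_div_succ _ (by omega)
  have hnone := none_le (N := c1 * ((m : ℝ) ^ 2 * ar m)) hK1
  have hp := hlow m (by omega)
  have hp1 := Pr_le_one w_ok (boxE m) (Big (c1 * ((m : ℝ) ^ 2 * ar m)) m)
  have hstep : Pr P (boxE n) (fun F => ¬ Big (2 * y * (n : ℝ) ^ (91/48 : ℝ)) n F) ≤
      (1 - c1) ^ (K * K) := by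
    refine le_trans ?_ (hnone.trans (pow_le_pow_left₀ (by linarith) (by linarith) _))
    exact Pr_mono w_ok fun F _ hF hB => hF (X_big_mono hsize hB)
  have hm9 : (1 : ℝ) ≤ B * Y * (3 * (K : ℝ)) ∨ K = 0 := by
    rcases Nat.eq_zero_or_pos K with h0 | h0
    · exact Or.inr h0
    left
    have h1 : (2 * (n : ℝ) + 1) < (2 * m + 1) * (K + 1) := by exact_mod_cast hK2
    have h2 : (1 : ℝ) ≤ K := by exact_mod_cast h0
    have h3 : (2 * (m : ℝ) + 1) * (K + 1) ≤ (3 * m) * (2 * K) :=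
      mul_le_mul (by linarith) (by linarith) (by positivity) (by positivity)
    have h4 : (n : ℝ) < 3 * m * K := by nlinarith
    have h5 : (3 * (m : ℝ)) * K ≤ (3 * (B * (n * Y))) * K :=
      mul_le_mul_of_nonneg_right (by linarith) (by linarith)
    have h6 : (n : ℝ) * 1 ≤ n * (B * Y * (3 * (K : ℝ))) := by nlinarith
    exact le_of_mul_le_mul_left h6 hn0'
  refine hstep.trans ?_
  rcases hm9 with h9 | h9
  · have h1 : 1 - c1 ≤ Real.exp (-c1) := by
      have := Real.add_one_le_exp (-c1)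
      linarith
    have h2 : (1 - c1) ^ (K * K) ≤ Real.exp (-c1) ^ (K * K) :=
      pow_le_pow_left₀ (by linarith) h1 _
    rw [← Real.exp_nat_mul] at h2
    refine h2.trans ?_
    have h3 : Real.exp (((K * K : ℕ) : ℝ) * -c1) ≤ Real.exp (-(c1 / (9 * B ^ 2) * (Y ^ 2)⁻¹)) := by
      refine Real.exp_le_exp.mpr ?_
      have h4 : (Y ^ 2)⁻¹ ≤ 9 * B ^ 2 * (K * K) := by
        rw [inv_le_iff_one_le_mul₀ (by positivity)]
        nlinarith
      push_cast
      have h5 : c1 / (9 * B ^ 2) * (Y ^ 2)⁻¹ ≤ c1 / (9 * B ^ 2) * (9 * B ^ 2 * (K * K)) :=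
        mul_le_mul_of_nonneg_left h4 (by positivity)
      have h6 : c1 / (9 * B ^ 2) * (9 * B ^ 2 * (K * K)) = c1 * (K * K) := by field_simp
      linarith
    have h7 := Real.exp_pos (-(c1 / (9 * B ^ 2) * (Y ^ 2)⁻¹))
    linarith
  · rw [h9, Nat.mul_zero, pow_zero]
    rw [h9] at hK2
    have h1 : (n : ℝ) < m := by
      have : n < m := by omega
      exact_mod_cast this
    have h2 : 1 ≤ B * Y := by
      have h3 : (n : ℝ) * 1 ≤ n * (B * Y) := by nlinarith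
      exact le_of_mul_le_mul_left h3 hn0'
    have h4 : (Y ^ 2)⁻¹ ≤ B ^ 2 := by
      rw [inv_le_iff_one_le_mul₀ (by positivity)]
      nlinarith
    have h5 : c1 / (9 * B ^ 2) * (Y ^ 2)⁻¹ ≤ 1 / 9 := by
      have h6 : c1 / (9 * B ^ 2) * (Y ^ 2)⁻¹ ≤ c1 / (9 * B ^ 2) * B ^ 2 :=
        mul_le_mul_of_nonneg_left h4 (by positivity)
      have h7 : c1 / (9 * B ^ 2) * B ^ 2 = c1 / 9 := by field_simp
      linarith
    have h8 := Real.add_one_le_exp (-(c1 / (9 * B ^ 2) * (Y ^ 2)⁻¹))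
    linarith

end TH992.V
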