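import Pool.Agent.TH992.V.LT1
import Pool.Agent.H12R2.Sep.Win1
import Pool.Agent.H12R2.Sep.WinHalf

/-!
Lower tail of the volume of the largest cluster: lower bound.
-/

set_option autoImplicit false

namespace TH992.V

open H974 Finset Filter Topology TH992.T
open Pool.Agent.H160R2.CV
open Pool.Agent.H160R2.CV.Quad (bo LA LA_of_far far_of_LA LA_of_reach pr_LA LA_inc IncA LocE
  pr_le_loc)

/-- a long cluster or a large cluster in a box around `(c1, c2)` -/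
def Bad (a : ℕ) (N : ℝ) (c1 c2 : ℤ) (F : Finset Edg) : Prop :=
  H12S.Crs c1 c2 a (3 * a) ↑F ∨ Big N (3 * a) ((trl (-c1) (-c2)).mp F)

theorem Big_inc {N : ℝ} {m : ℕ} {F G : Finset Edg} (h : F ⊆ G) (hB : Big N m F) : Big N m G := by
  obtain ⟨v, hv, T, hT, hr⟩ := hB
  refine ⟨v, hv, T, hT, fun u hu => (hr u hu).mono ?_⟩
  exact Set.inter_subset_inter_left _ (by exact_mod_cast h)

theorem mp_sub (σ : LSym) {F G : Finset Edg} (h : F ⊆ G) : σ.mp F ⊆ σ.mp G := by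
  intro e he
  rw [LSym.mem_mp] at he ⊢
  exact h he

theorem Bad_incr (S : Finset Edg) (a : ℕ) (N : ℝ) (c1 c2 : ℤ) : IncrE S (Bad a N c1 c2) := by
  intro F G h _ hF
  rcases hF with hF | hF
  · obtain ⟨x, y, h1, h2, h3⟩ := hF
    exact Or.inl ⟨x, y, h1, h2, h3.mono (by exact_mod_cast h)⟩
  · exact Or.inr (Big_inc (mp_sub _ h) hF)

theorem pr_big_trl (S : Finset Edg) (N : ℝ) (m : ℕ) (c1 c2 : ℤ) :
    Pr P S (fun F => Big N m ((trl (-c1) (-c2)).mp F)) ≤ Pr P (boxE m) (Big N m) := by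
  have h1 := pr_le_loc S ((trl c1 c2).mp (boxE m))
    (A := fun F => Big N m ((trl (-c1) (-c2)).mp F)) (fun F G h hF => Big_inc (mp_sub _ h) hF)
    (fun F => by
      simp only
      rw [LSym.mp_inter, trl_trl]
      exact Big_loc)
  refine h1.trans (le_of_eq ?_)
  unfold P
  rw [LSym.pr]
  apply Pr_congr
  intro F _
  rw [trl_trl]

/-- probability of a good cell -/
theorem good_cell : ∃ κ L : ℝ, 0 < κ ∧ κ ≤ 1 ∧ 0 < L ∧ ∀ (S : Finset Edg) (a : ℕ), 1 ≤ a →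
    ∀ c1 c2 : ℤ, κ ≤ 1 - Pr P S (Bad a (L * (((3 * a : ℕ) : ℝ) ^ 2 * ar (3 * a))) c1 c2) := by
  obtain ⟨C, hC, hup⟩ := max_upper
  obtain ⟨κ, hκ, hwin⟩ := H12S.win_half
  have hκ1 : κ ≤ 1 / 2 := (hwin 0).kle
  refine ⟨κ ^ 4 / 2, 2 * C + 1, by positivity, ?_, by positivity, ?_⟩
  · have : κ ^ 4 ≤ 1 := pow_le_one₀ hκ.le (by linarith)
    linarith
  intro S a ha c1 c2
  have h1 : κ ^ 4 ≤ 1 - Pr P S (fun F => H12S.Crs c1 c2 a (3 * a) ↑F) := by
    have := H12S.win_blk_pri (hwin (2 * a)) ha le_rfl c1 c2 S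
    unfold H12S.PQ at this
    rw [Pr_not] at this
    exact this
  have h2 : 1 / 2 ≤ 1 - Pr P S (fun F => Big ((2 * C + 1) * (((3 * a : ℕ) : ℝ) ^ 2 * ar (3 * a)))
      (3 * a) ((trl (-c1) (-c2)).mp F)) := by
    have g1 := pr_big_trl S ((2 * C + 1) * (((3 * a : ℕ) : ℝ) ^ 2 * ar (3 * a))) (3 * a) c1 c2
    have g2 := hup (3 * a) (by omega) (2 * C + 1) (by positivity)
    have g3 : C / (2 * C + 1) ^ 2 ≤ 1 / 2 := by
      rw [div_le_div_iff₀ (by positivity) (by norm_num)]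
      nlinarith
    linarith
  have h3 := Pr_harris_dd w_ok (S := S) (A := fun F => H12S.Crs c1 c2 a (3 * a) ↑F)
    (B := fun F => Big ((2 * C + 1) * (((3 * a : ℕ) : ℝ) ^ 2 * ar (3 * a)))
      (3 * a) ((trl (-c1) (-c2)).mp F))
    (fun F G h _ hF => by
      obtain ⟨x, y, k1, k2, k3⟩ := hF
      exact ⟨x, y, k1, k2, k3.mono (by exact_mod_cast h)⟩)
    (fun F G h _ hF => Big_inc (mp_sub _ h) hF)
  have h4 : Pr P S (fun F => ¬ H12S.Crs c1 c2 a (3 * a) ↑F ∧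
      ¬ Big ((2 * C + 1) * (((3 * a : ℕ) : ℝ) ^ 2 * ar (3 * a)))
      (3 * a) ((trl (-c1) (-c2)).mp F)) =
      1 - Pr P S (Bad a ((2 * C + 1) * (((3 * a : ℕ) : ℝ) ^ 2 * ar (3 * a))) c1 c2) := by
    rw [← Pr_not]
    exact Pr_congr fun F _ => by unfold Bad; exact not_or.symm
  rw [← h4]
  refine le_trans ?_ h3
  have h5 : κ ^ 4 * (1 / 2) ≤ (1 - Pr P S (fun F => H12S.Crs c1 c2 a (3 * a) ↑F)) *
      (1 - Pr P S (fun F => Big ((2 * C + 1) * (((3 * a : ℕ) : ℝ) ^ 2 * ar (3 * a)))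
      (3 * a) ((trl (-c1) (-c2)).mp F))) :=
    mul_le_mul h1 h2 (by norm_num) (le_trans (by positivity) h1)
  linarith

/-- decreasing events for a finite set of indices -/
theorem many_dd {ι : Type*} {S : Finset Edg} {κ : ℝ} (hκ : 0 ≤ κ) (J : Finset ι)
    (A : ι → Finset Edg → Prop) (hinc : ∀ i, IncrE S (A i)) (h : ∀ i ∈ J, κ ≤ 1 - Pr P S (A i)) :
    κ ^ J.card ≤ Pr P S (fun F => ∀ i ∈ J, ¬ A i F) := by
  classical
  induction J using Finset.induction_on with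
  | empty =>
    rw [card_empty, pow_zero]
    refine le_of_eq ?_
    symm
    exact Pr_true _ (fun F _ i hi => absurd hi (Finset.notMem_empty i))
  | insert i J hi ih =>
    have ih' := ih (fun j hj => h j (mem_insert_of_mem hj))
    have h1 := h i (mem_insert_self i J)
    have h2 := Pr_harris_dd w_ok (S := S) (A := A i) (B := fun F => ∃ j ∈ J, A j F) (hinc i)
      (fun F G h h' hF => by
        obtain ⟨j, hj, hF⟩ := hF
        exact ⟨j, hj, hinc j F G h h' hF⟩)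
    have h3 : 1 - Pr P S (fun F => ∃ j ∈ J, A j F) = Pr P S (fun F => ∀ j ∈ J, ¬ A j F) := by
      rw [← Pr_not]
      exact Pr_congr fun F _ => by push Not; rfl
    rw [h3] at h2
    rw [card_insert_of_notMem hi, pow_succ, mul_comm]
    refine (mul_le_mul h1 ih' (pow_nonneg hκ _) (hκ.trans h1)).trans (h2.trans ?_)
    refine Pr_mono w_ok fun F _ hF j hj => ?_
    rw [mem_insert] at hj
    rcases hj with hj | hj
    · rw [hj]; exact hF.1
    · intro hA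
      exact hF.2 ⟨j, hj, hA⟩

/-- Without crossing the cluster stays in the box. -/
theorem stay {a : ℕ} {c1 c2 : ℤ} {F : Set Edg} (h : ¬ H12S.Crs c1 c2 a (3 * a) F) {v u : Vtx}
    (hv : inR (c1 - a) (c1 + a) (c2 - a) (c2 + a) v) (hr : Reach F v u) :
    Reach (F ∩ ↑(RE (c1 - (3 * a : ℕ)) (c1 + (3 * a : ℕ)) (c2 - (3 * a : ℕ))
      (c2 + (3 * a : ℕ)))) v u := by
  induction hr with
  | refl => exact Reach.refl _ _
  | @tail w w' hw hs ih =>
    have hw1 : ¬ (w.1 ≤ c1 - (3 * a : ℕ) ∨ c1 + (3 * a : ℕ) ≤ w.1 ∨ w.2 ≤ c2 - (3 * a : ℕ) ∨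
        c2 + (3 * a : ℕ) ≤ w.2) := fun hc => h ⟨v, w, hv, by push_cast at hc ⊢; exact hc, hw⟩
    have hw' : ¬ (w'.1 ≤ c1 - (3 * a : ℕ) ∨ c1 + (3 * a : ℕ) ≤ w'.1 ∨ w'.2 ≤ c2 - (3 * a : ℕ) ∨
        c2 + (3 * a : ℕ) ≤ w'.2) := fun hc => h ⟨v, w', hv, by push_cast at hc ⊢; exact hc,
          hw.tail hs⟩
    refine ih.tail ?_
    obtain ⟨⟨x0, y0, b⟩, he, hcase⟩ := hs
    refine ⟨(x0, y0, b), ⟨he, ?_⟩, hcase⟩
    rw [mem_coe]
    push_cast at hw1 hw' ⊢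
    cases b
    · rw [mem_RE_false]
      simp only [src_mk, tgt_false] at hcase
      rcases hcase with ⟨h3, h4⟩ | ⟨h3, h4⟩
      · rw [← h3] at hw1; rw [← h4] at hw'; simp only at hw1 hw'; omega
      · rw [← h3] at hw'; rw [← h4] at hw1; simp only at hw1 hw'; omega
    · rw [mem_RE_true]
      simp only [src_mk, tgt_true] at hcase
      rcases hcase with ⟨h3, h4⟩ | ⟨h3, h4⟩
      · rw [← h3] at hw1; rw [← h4] at hw'; simp only at hw1 hw'; omega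
      · rw [← h3] at hw'; rw [← h4] at hw1; simp only at hw1 hw'; omega

/-- the grid -/
noncomputable def Gr (n a : ℕ) : Finset (ℤ × ℤ) :=
  Finset.Icc (-((n / (2 * a) : ℕ) + 1 : ℤ)) ((n / (2 * a) : ℕ) + 1) ×ˢ
    Finset.Icc (-((n / (2 * a) : ℕ) + 1 : ℤ)) ((n / (2 * a) : ℕ) + 1)

theorem card_Gr (n a : ℕ) : (Gr n a).card = (2 * (n / (2 * a)) + 3) * (2 * (n / (2 * a)) + 3) := by
  unfold Gr
  rw [card_product, Int.card_Icc]
  have : (((n / (2 * a) : ℕ) : ℤ) + 1 + 1 - -(((n / (2 * a) : ℕ) : ℤ) + 1)).toNat =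
    2 * (n / (2 * a)) + 3 := by omega
  rw [this]

theorem grid_one {n a : ℕ} (ha : 1 ≤ a) {t : ℤ} (h1 : -(n : ℤ) ≤ t) (h2 : t ≤ n) :
    ∃ i : ℤ, (-((n / (2 * a) : ℕ) + 1 : ℤ) ≤ i ∧ i ≤ (n / (2 * a) : ℕ) + 1) ∧
      2 * (a : ℤ) * i - a ≤ t ∧ t ≤ 2 * (a : ℤ) * i + a := by
  have ha' : (0 : ℤ) < 2 * a := by omega
  have e1 := Int.emod_add_mul_ediv (t + a) (2 * a)
  have e2 := Int.emod_nonneg (t + a) ha'.ne'
  have e3 := Int.emod_lt_of_pos (t + a) ha'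
  have hk : n < 2 * a * (n / (2 * a) + 1) := Nat.lt_mul_div_succ n (by omega)
  have hkZ : (n : ℤ) < 2 * a * ((n / (2 * a) : ℕ) + 1) := by exact_mod_cast hk
  refine ⟨(t + a) / (2 * a), ⟨?_, ?_⟩, by omega, by omega⟩
  · rw [Int.le_ediv_iff_mul_le ha']
    nlinarith
  · have : (t + a) / (2 * a) < ((n / (2 * a) : ℕ) + 1 : ℤ) + 1 := by
      rw [Int.ediv_lt_iff_lt_mul ha']
      nlinarith
    omega

/-- All cells are good: no large cluster. -/
theorem cells {n a : ℕ} (ha : 1 ≤ a) {N : ℝ} {F : Finset Edg}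
    (h : ∀ z ∈ Gr n a, ¬ Bad a N (2 * (a : ℤ) * z.1) (2 * (a : ℤ) * z.2) F) : ¬ Big N n F := by
  rintro ⟨v, hv, T, hT, hr⟩
  rw [w_mem_bx] at hv
  obtain ⟨i, ⟨hi1, hi2⟩, hi3, hi4⟩ := grid_one (n := n) ha hv.1.1 hv.1.2
  obtain ⟨k, ⟨hk1, hk2⟩, hk3, hk4⟩ := grid_one (n := n) ha hv.2.1 hv.2.2
  have hb := h (i, k) (by
    unfold Gr
    rw [mem_product, mem_Icc, mem_Icc]
    exact ⟨⟨hi1, hi2⟩, hk1, hk2⟩)
  simp only at hb
  obtain ⟨c1, hc1⟩ : ∃ c1 : ℤ, c1 = 2 * (a : ℤ) * i := ⟨_, rfl⟩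
  obtain ⟨c2, hc2⟩ : ∃ c2 : ℤ, c2 = 2 * (a : ℤ) * k := ⟨_, rfl⟩
  rw [← hc1] at hi3 hi4
  rw [← hc2] at hk3 hk4
  rw [← hc1, ← hc2] at hb
  unfold Bad at hb
  push Not at hb
  obtain ⟨hb1, hb2⟩ := hb
  apply hb2
  refine ⟨(trl (-c1) (-c2)).ψ v, ?_, T.map (trl (-c1) (-c2)).ψ.toEmbedding, ?_, ?_⟩
  · obtain ⟨x, y⟩ := v
    rw [trl_ψ, w_mem_bx]
    simp only at hi3 hi4 hk3 hk4 ⊢
    push_cast
    omega
  · rwa [Finset.card_map]
  · intro u hu
    rw [Finset.mem_map] at hu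
    obtain ⟨w, hw, rfl⟩ := hu
    have h1 : Reach (↑F) v w := (hr w hw).mono Set.inter_subset_left
    have h2 := stay hb1 (v := v) (by unfold inR; omega) h1
    have h3 := (trl (-c1) (-c2)).reach h2
    rw [LSym.image_inter, trl_RE] at h3
    refine h3.mono ?_
    apply Set.inter_subset_inter_right
    intro e he
    rw [mem_coe] at he ⊢
    unfold boxE
    exact RE_sub_RE (by omega) (by omega) (by omega) (by omega) he

/-- Lower bound of the lower tail at scale `a`. -/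
theorem lt_low_scale : ∃ κ L : ℝ, 0 < κ ∧ κ ≤ 1 ∧ 0 < L ∧ ∀ n a : ℕ, 1 ≤ a → a ≤ n →
    κ ^ (25 * (n / a) * (n / a)) ≤
      Pr P (boxE n) (fun F => ¬ Big (L * (((3 * a : ℕ) : ℝ) ^ 2 * ar (3 * a))) n F) := by
  obtain ⟨κ, L, hκ, hκ1, hL, hcell⟩ := good_cell
  refine ⟨κ, L, hκ, hκ1, hL, fun n a ha han => ?_⟩
  have h1 := many_dd (S := boxE n) hκ.le (Gr n a) (fun z =>
    Bad a (L * (((3 * a : ℕ) : ℝ) ^ 2 * ar (3 * a))) (2 * (a : ℤ) * z.1) (2 * (a : ℤ) * z.2))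
    (fun z => Bad_incr _ _ _ _ _) (fun z _ => hcell _ a ha _ _)
  refine le_trans ?_ (h1.trans (Pr_mono w_ok fun F _ hF => cells ha hF))
  refine pow_le_pow_of_le_one hκ.le hκ1 ?_
  rw [card_Gr]
  have h2 : 1 ≤ n / a := (Nat.one_le_div_iff (by omega)).mpr han
  have h3 : 2 * (n / (2 * a)) ≤ n / a := by
    rw [mul_comm 2 a, ← Nat.div_div_eq_div_mul]
    exact Nat.mul_div_le _ _
  have h4 : 2 * (n / (2 * a)) + 3 ≤ 5 * (n / a) := by omega
  calc (2 * (n / (2 * a)) + 3) * (2 * (n / (2 * a)) + 3) ≤ (5 * (n / a)) * (5 * (n / a)) :=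
        Nat.mul_le_mul h4 h4
    _ = 25 * (n / a) * (n / a) := by ring

theorem Pr_mem {S : Finset Edg} {e : Edg} (he : e ∈ S) :
    Pr P S (fun F => e ∈ F) = 1 / 2 := by
  rw [Pr_local (singleton_subset_iff.mpr he) (fun F _ => by simp)]
  have h1 := Ex_insert P (a := e) (S := ∅) (Finset.notMem_empty e) (fun F => ind (e ∈ F))
  unfold Pr
  rw [LawfulSingleton.insert_empty_eq] at h1
  rw [h1]
  have h2 : Ex P ∅ (fun F => ind (e ∈ insert e F)) = 1 := Pr_true _ fun F _ => mem_insert_self e F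
  have h3 : Ex P ∅ (fun F => ind (e ∈ F)) = 0 := by
    have : Pr P ∅ (fun F => ¬ (e ∈ F)) = 1 := Pr_true _ fun F hF he => by
      have := hF he
      simp at this
    rw [Pr_not] at this
    unfold Pr at this
    linarith
  rw [h2, h3]
  unfold P
  norm_num

/-- all edges closed -/
theorem all_closed (n : ℕ) : (1 / 2 : ℝ) ^ (boxE n).card ≤
    Pr P (boxE n) (fun F => ¬ Big 2 n F) := by
  have h1 : Pr P (boxE n) (fun F => F = ∅) ≤ Pr P (boxE n) (fun F => ¬ Big 2 n F) := by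
    refine Pr_mono w_ok fun F _ hF => ?_
    rw [hF]
    rintro ⟨v, _, T, hT, hr⟩
    have hsub : T ⊆ {v} := by
      intro u hu
      have h2 := hr u hu
      rw [mem_singleton]
      rcases Relation.ReflTransGen.cases_head h2 with h3 | ⟨w, ⟨e, he, _⟩, _⟩
      · exact h3.symm
      · simp at he
    have h3 := card_le_card hsub
    rw [card_singleton] at h3
    have h4 : (T.card : ℝ) ≤ 1 := by exact_mod_cast h3
    linarith
  refine le_trans ?_ h1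
  have h2 := many_dd (S := boxE n) (κ := 1/2) (by norm_num) (boxE n) (fun e F => e ∈ F)
    (fun e F G h _ hF => h hF) (fun e he => by
      have : Pr P (boxE n) (fun F => e ∈ F) = 1 / 2 := Pr_mem he
      linarith)
  refine h2.trans (Pr_mono w_ok fun F hF h => ?_)
  rw [eq_empty_iff_forall_notMem]
  intro e he
  exact h e (hF he) he

end TH992.V
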