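import Pool.Agent.TH992.V.LT2
import Pool.Agent.H160R2.SA.Arm

/-!
Tails of the volume of the largest cluster: final form.
-/

set_option autoImplicit false

namespace TH992.V

open H974 Finset Filter Topology TH992.T MeasureTheory
open Pool.Agent.H160R2.CV

/-- Lower bound for the lower tail of the volume of the largest cluster. -/
theorem lt_low (h : ArSharp) : ∃ C : ℝ, 0 < C ∧ ∀ n : ℕ, 1 ≤ n → ∀ y : ℝ, 0 < y → y ≤ 1 →
    ∀ N : ℝ, 2 ≤ N → y * (n : ℝ) ^ (91/48 : ℝ) ≤ N →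
    Real.exp (-(C * y ^ (-(96/91) : ℝ))) ≤ Pr P (boxE n) (fun F => ¬ Big N n F) := by
  obtain ⟨a1, A1, ha1, hA1, har⟩ := h
  obtain ⟨κ, L, hκ, hκ1, hL, hlow⟩ := lt_low_scale
  obtain ⟨B, hB⟩ : ∃ B : ℝ, B = 9 * L * A1 + 1 := ⟨_, rfl⟩
  have hB1 : 1 ≤ B := by
    rw [hB]
    have : 0 ≤ 9 * L * A1 := by positivity
    linarith
  obtain ⟨W, hW⟩ : ∃ W : ℝ, W = B ^ (96/91 : ℝ) := ⟨_, rfl⟩
  have hW0 : 0 < W := by rw [hW]; positivity
  have hlog : Real.log κ ≤ 0 := Real.log_nonpos hκ.le hκ1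
  refine ⟨(100 * -Real.log κ + 18) * W, mul_pos (by linarith) hW0, ?_⟩
  intro n hn y hy hy1 N hN2 hN
  have hn0 : (0 : ℝ) < n := by exact_mod_cast hn
  have hn1 : (1 : ℝ) ≤ n := by exact_mod_cast hn
  obtain ⟨Z, hZ⟩ : ∃ Z : ℝ, Z = (y / B) ^ (48/91 : ℝ) := ⟨_, rfl⟩
  have hZ0 : 0 < Z := by rw [hZ]; positivity
  have hZ1 : Z ≤ 1 := by
    rw [hZ]
    refine Real.rpow_le_one (by positivity) ?_ (by norm_num)
    rw [div_le_one (by linarith)]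
    linarith
  have hZy : Z ^ (91/48 : ℝ) = y / B := by
    rw [hZ, ← Real.rpow_mul (by positivity)]; norm_num
  have hZe : W * y ^ (-(96/91) : ℝ) = (Z ^ 2)⁻¹ := by
    rw [hZ, ← Real.rpow_natCast, ← Real.rpow_mul (by positivity), ← Real.rpow_neg (by positivity)]
    rw [show (-(48/91 * ((2 : ℕ) : ℝ)) : ℝ) = -(96/91) by norm_num,
      Real.div_rpow hy.le (by linarith), hW, Real.rpow_neg (by linarith : (0:ℝ) ≤ B),
      div_inv_eq_mul]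
    ring
  have hexp : (100 * -Real.log κ + 18) * W * y ^ (-(96/91) : ℝ) =
      (100 * -Real.log κ + 18) * (Z ^ 2)⁻¹ := by rw [mul_assoc, hZe]
  rw [hexp]
  rcases le_or_gt 1 (n * Z) with h1 | h1
  · obtain ⟨a, ha⟩ : ∃ a : ℕ, a = ⌊n * Z⌋₊ := ⟨_, rfl⟩
    have ha1' : 1 ≤ a := by rw [ha]; exact Nat.one_le_floor_iff _ |>.mpr h1
    have haR : (1 : ℝ) ≤ a := by exact_mod_cast ha1'
    have ha0 : (0 : ℝ) < a := by linarith
    have haM : (a : ℝ) ≤ n * Z := by rw [ha]; exact Nat.floor_le (by positivity)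
    have haM2 : n * Z < a + 1 := by rw [ha]; exact Nat.lt_floor_add_one _
    have han : a ≤ n := by
      have : (a : ℝ) ≤ n := by nlinarith
      exact_mod_cast this
    have key := hlow n a ha1' han
    have hsize : L * (((3 * a : ℕ) : ℝ) ^ 2 * ar (3 * a)) ≤ N := by
      refine le_trans ?_ hN
      have h3a : (0 : ℝ) < ((3 * a : ℕ) : ℝ) := by push_cast; linarith
      have g1 := (har (3 * a) (by omega)).2
      have g2 : ((3 * a : ℕ) : ℝ) ^ 2 * ((3 * a : ℕ) : ℝ) ^ (-(5 / 48 : ℝ)) =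
          ((3 * a : ℕ) : ℝ) ^ (91/48 : ℝ) := by
        rw [← Real.rpow_natCast, ← Real.rpow_add h3a]; norm_num
      have g3 : ((3 * a : ℕ) : ℝ) ^ (91/48 : ℝ) ≤ 9 * (a : ℝ) ^ (91/48 : ℝ) := by
        push_cast
        rw [Real.mul_rpow (by norm_num) ha0.le]
        refine mul_le_mul_of_nonneg_right ?_ (Real.rpow_nonneg ha0.le _)
        calc (3 : ℝ) ^ (91/48 : ℝ) ≤ (3 : ℝ) ^ (2 : ℝ) :=
              Real.rpow_le_rpow_of_exponent_le (by norm_num) (by norm_num)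
          _ = 9 := by norm_num
      have g4 : (a : ℝ) ^ (91/48 : ℝ) ≤ (n : ℝ) ^ (91/48 : ℝ) * (y / B) := by
        refine (Real.rpow_le_rpow ha0.le haM (by norm_num)).trans (le_of_eq ?_)
        rw [Real.mul_rpow hn0.le hZ0.le, hZy]
      calc L * (((3 * a : ℕ) : ℝ) ^ 2 * ar (3 * a))
          ≤ L * (((3 * a : ℕ) : ℝ) ^ 2 * (A1 * ((3 * a : ℕ) : ℝ) ^ (-(5 / 48 : ℝ)))) :=
            mul_le_mul_of_nonneg_left (mul_le_mul_of_nonneg_left g1 (by positivity)) hL.le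
        _ = L * A1 * (((3 * a : ℕ) : ℝ) ^ 2 * ((3 * a : ℕ) : ℝ) ^ (-(5 / 48 : ℝ))) := by ring
        _ = L * A1 * ((3 * a : ℕ) : ℝ) ^ (91/48 : ℝ) := by rw [g2]
        _ ≤ L * A1 * (9 * (a : ℝ) ^ (91/48 : ℝ)) := mul_le_mul_of_nonneg_left g3 (by positivity)
        _ = (9 * L * A1) * (a : ℝ) ^ (91/48 : ℝ) := by ring
        _ ≤ B * (a : ℝ) ^ (91/48 : ℝ) := by
            refine mul_le_mul_of_nonneg_right ?_ (Real.rpow_nonneg ha0.le _)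
            rw [hB]; linarith
        _ ≤ B * ((n : ℝ) ^ (91/48 : ℝ) * (y / B)) := mul_le_mul_of_nonneg_left g4 (by linarith)
        _ = y * (n : ℝ) ^ (91/48 : ℝ) := by field_simp
    refine le_trans ?_ (key.trans (Pr_mono w_ok fun F _ hF hB' => hF (X_big_mono hsize hB')))
    have e : κ ^ (25 * (n / a) * (n / a)) =
        Real.exp (((25 * (n / a) * (n / a) : ℕ) : ℝ) * Real.log κ) := by
      rw [Real.exp_nat_mul, Real.exp_log hκ]
    rw [e]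
    refine Real.exp_le_exp.mpr ?_
    have h2 : ((n / a : ℕ) : ℝ) ≤ 2 * Z⁻¹ := by
      refine (Nat.cast_div_le).trans ?_
      rw [div_le_iff₀ ha0]
      have h3 : n * Z ≤ 2 * a := by linarith
      calc (n : ℝ) = n * Z * Z⁻¹ := by field_simp
        _ ≤ 2 * a * Z⁻¹ := mul_le_mul_of_nonneg_right h3 (by positivity)
        _ = _ := by ring
    have h4 : ((25 * (n / a) * (n / a) : ℕ) : ℝ) ≤ 100 * (Z ^ 2)⁻¹ := by
      push_cast
      have h5 : ((n / a : ℕ) : ℝ) * ((n / a : ℕ) : ℝ) ≤ (2 * Z⁻¹) * (2 * Z⁻¹) :=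
        mul_le_mul h2 h2 (Nat.cast_nonneg _) (by positivity)
      have h6 : (2 * Z⁻¹) * (2 * Z⁻¹) = 4 * (Z ^ 2)⁻¹ := by rw [← inv_pow]; ring
      rw [h6] at h5
      linarith
    have h7 : 0 < (Z ^ 2)⁻¹ := by positivity
    nlinarith
  · have h2 := all_closed n
    refine le_trans ?_ (h2.trans (Pr_mono w_ok fun F _ hF hB' => hF (X_big_mono hN2 hB')))
    have h3 : ((boxE n).card : ℝ) ≤ 18 * (n : ℝ) ^ 2 := by
      have h4 : ((boxE n).card : ℝ) ≤ (2 * (n : ℝ) + 1) * ((2 * n + 1) * 2) := by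
        exact_mod_cast card_boxE n
      nlinarith
    have h5 : (n : ℝ) ^ 2 ≤ (Z ^ 2)⁻¹ := by
      rw [← inv_pow]
      refine pow_le_pow_left₀ hn0.le ?_ 2
      rw [le_inv_comm₀ hn0 hZ0]
      have : Z * n ≤ 1 := by linarith
      rwa [← le_div_iff₀ hn0, one_div] at this
    have h6 : Real.exp (-1) ≤ 1 / 2 := by
      rw [Real.exp_neg, one_div]
      refine inv_anti₀ (by norm_num) ?_
      have := Real.add_one_le_exp (1 : ℝ)
      linarith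
    have h7 : Real.exp (-1) ^ (boxE n).card ≤ (1 / 2 : ℝ) ^ (boxE n).card :=
      pow_le_pow_left₀ (Real.exp_pos _).le h6 _
    refine le_trans ?_ h7
    rw [← Real.exp_nat_mul]
    refine Real.exp_le_exp.mpr ?_
    have h8 : 0 < (Z ^ 2)⁻¹ := by positivity
    nlinarith

theorem big_ceil {N : ℝ} {n : ℕ} {F : Finset Edg} : Big ((⌈N⌉₊ : ℕ) : ℝ) n F ↔ Big N n F := by
  constructor
  · rintro ⟨v, hv, T, hT, hr⟩
    exact ⟨v, hv, T, (Nat.le_ceil N).trans hT, hr⟩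
  · rintro ⟨v, hv, T, hT, hr⟩
    exact ⟨v, hv, T, by exact_mod_cast Nat.ceil_le.mpr hT, hr⟩

theorem law_ge (n : ℕ) (N : ℝ) :
    (bondLaw hlf).real {ω | N ≤ (maxCl n ω : ℝ)} = Pr P (boxE n) (Big N n) := by
  have h1 : {ω | N ≤ (maxCl n ω : ℝ)} = {ω | ⌈N⌉₊ ≤ maxCl n ω} := by
    ext ω
    exact (Nat.ceil_le (a := N) (n := maxCl n ω)).symm
  rw [h1, law_maxCl]
  exact Pr_congr fun F _ => big_ceil

theorem law_le (n : ℕ) {N : ℝ} (hN : 0 ≤ N) :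
    (bondLaw hlf).real {ω | (maxCl n ω : ℝ) ≤ N} =
      Pr P (boxE n) (fun F => ¬ Big ((⌊N⌋₊ + 1 : ℕ) : ℝ) n F) := by
  have h1 : {ω | (maxCl n ω : ℝ) ≤ N} = {ω | ¬ (Big ((⌊N⌋₊ + 1 : ℕ) : ℝ) n (FF (boxE n) ω))} := by
    ext ω
    simp only [Set.mem_setOf_eq]
    rw [← InfMax.le_maxCl_iff, Nat.add_one_le_iff, not_lt, Nat.le_floor_iff hN]
  rw [h1, law_event (Q := fun F => ¬ Big ((⌊N⌋₊ + 1 : ℕ) : ℝ) n F)]
  rfl

/-- The tails of the volume of the largest cluster. -/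
theorem main : ∃ c C : ℝ, 0 < c ∧ 0 < C ∧ ∀ n : ℕ, 1 ≤ n →
    (∀ x : ℝ, 0 ≤ x → (bondLaw hlf).real {ω | x * (n : ℝ) ^ (91/48 : ℝ) ≤ (maxCl n ω : ℝ)} ≤
      C * Real.exp (-(c * x ^ (96/5 : ℝ)))) ∧
    (∀ x : ℝ, 1 ≤ x → x ≤ c * (n : ℝ) ^ (5/48 : ℝ) → Real.exp (-(C * x ^ (96/5 : ℝ))) ≤
      (bondLaw hlf).real {ω | x * (n : ℝ) ^ (91/48 : ℝ) ≤ (maxCl n ω : ℝ)}) ∧
    (∀ y : ℝ, (n : ℝ) ^ (-(91/48) : ℝ) ≤ y → y ≤ 1 →
      Real.exp (-(C * y ^ (-(96/91) : ℝ))) ≤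
        (bondLaw hlf).real {ω | (maxCl n ω : ℝ) ≤ y * (n : ℝ) ^ (91/48 : ℝ)} ∧
      (bondLaw hlf).real {ω | (maxCl n ω : ℝ) ≤ y * (n : ℝ) ^ (91/48 : ℝ)} ≤
        C * Real.exp (-(c * y ^ (-(96/91) : ℝ)))) := by
  obtain ⟨l, hl, h1⟩ := vol_up Pool.Agent.H160R2.SA.arSharp
  obtain ⟨c2, K2, hc2, hK2, h2⟩ := vol_low Pool.Agent.H160R2.SA.arSharp
  obtain ⟨c3, hc3, h3⟩ := lt_up Pool.Agent.H160R2.SA.arSharp
  obtain ⟨K4, hK4, h4⟩ := lt_low Pool.Agent.H160R2.SA.arSharp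
  have hl0 : 0 < l := by linarith
  obtain ⟨c1, hc1⟩ : ∃ c1 : ℝ, c1 = (l ^ (96/5 : ℝ))⁻¹ / 2 := ⟨_, rfl⟩
  have hc10 : 0 < c1 := by rw [hc1]; positivity
  obtain ⟨c, hc⟩ : ∃ c : ℝ, c = min c1 (min c2 c3) := ⟨_, rfl⟩
  have hcc1 : c ≤ c1 := by rw [hc]; exact min_le_left _ _
  have hcc2 : c ≤ c2 := by rw [hc]; exact (min_le_right _ _).trans (min_le_left _ _)
  have hcc3 : c ≤ c3 := by rw [hc]; exact (min_le_right _ _).trans (min_le_right _ _)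
  have hc0 : 0 < c := by rw [hc]; exact lt_min hc10 (lt_min hc2 hc3)
  obtain ⟨C, hC⟩ : ∃ C : ℝ, C = 2000 + K2 + K4 := ⟨_, rfl⟩
  refine ⟨c, C, hc0, by rw [hC]; positivity, fun n hn => ⟨?_, ?_, ?_⟩⟩
  · intro x hx
    rw [law_ge]
    refine (h1 n hn x hx).trans ?_
    have e : (x / l) ^ (96/5 : ℝ) / 2 = c1 * x ^ (96/5 : ℝ) := by
      rw [Real.div_rpow hx hl0.le, hc1]; ring
    rw [e]
    have g1 : Real.exp (-(c1 * x ^ (96/5 : ℝ))) ≤ Real.exp (-(c * x ^ (96/5 : ℝ))) := by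
      refine Real.exp_le_exp.mpr ?_
      have := mul_le_mul_of_nonneg_right hcc1 (Real.rpow_nonneg hx (96/5 : ℝ))
      linarith
    have g2 : 2000 ≤ C := by rw [hC]; linarith
    exact mul_le_mul g2 g1 (Real.exp_pos _).le (by linarith)
  · intro x hx hxn
    rw [law_ge]
    have g1 : x ≤ c2 * (n : ℝ) ^ (5/48 : ℝ) :=
      hxn.trans (mul_le_mul_of_nonneg_right hcc2 (by positivity))
    refine le_trans (Real.exp_le_exp.mpr ?_) (h2 n hn x hx g1)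
    have g2 : K2 ≤ C := by rw [hC]; linarith
    have := mul_le_mul_of_nonneg_right g2 (Real.rpow_nonneg (by linarith : (0:ℝ) ≤ x) (96/5 : ℝ))
    linarith
  · intro y hy hy1
    have hn0 : (0 : ℝ) < n := by exact_mod_cast hn
    have hy0 : 0 < y := lt_of_lt_of_le (Real.rpow_pos_of_pos hn0 _) hy
    have hM1 : 1 ≤ y * (n : ℝ) ^ (91/48 : ℝ) := by
      calc (1 : ℝ) = (n : ℝ) ^ (-(91/48) : ℝ) * (n : ℝ) ^ (91/48 : ℝ) := by
            rw [← Real.rpow_add hn0]; norm_num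
        _ ≤ _ := mul_le_mul_of_nonneg_right hy (by positivity)
    have hM0 : 0 ≤ y * (n : ℝ) ^ (91/48 : ℝ) := by linarith
    rw [law_le n hM0]
    constructor
    · have g1 : (2 : ℝ) ≤ ((⌊y * (n : ℝ) ^ (91/48 : ℝ)⌋₊ + 1 : ℕ) : ℝ) := by
        have : 1 ≤ ⌊y * (n : ℝ) ^ (91/48 : ℝ)⌋₊ := Nat.one_le_floor_iff _ |>.mpr hM1
        have : 2 ≤ ⌊y * (n : ℝ) ^ (91/48 : ℝ)⌋₊ + 1 := by omega
        exact_mod_cast this
      have g2 : y * (n : ℝ) ^ (91/48 : ℝ) ≤ ((⌊y * (n : ℝ) ^ (91/48 : ℝ)⌋₊ + 1 : ℕ) : ℝ) := by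
        push_cast
        exact (Nat.lt_floor_add_one _).le
      refine le_trans (Real.exp_le_exp.mpr ?_) (h4 n hn y hy0 hy1 _ g1 g2)
      have g3 : K4 ≤ C := by rw [hC]; linarith
      have := mul_le_mul_of_nonneg_right g3 (Real.rpow_nonneg hy0.le (-(96/91) : ℝ))
      linarith
    · have g1 : ((⌊y * (n : ℝ) ^ (91/48 : ℝ)⌋₊ + 1 : ℕ) : ℝ) ≤
          2 * y * (n : ℝ) ^ (91/48 : ℝ) := by
        push_cast
        have := Nat.floor_le hM0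
        linarith
      refine (Pr_mono w_ok fun F _ hF hB' => hF (X_big_mono g1 hB')).trans
        ((h3 n hn y hy hy1).trans ?_)
      have g2 : Real.exp (-(c3 * y ^ (-(96/91) : ℝ))) ≤ Real.exp (-(c * y ^ (-(96/91) : ℝ))) := by
        refine Real.exp_le_exp.mpr ?_
        have := mul_le_mul_of_nonneg_right hcc3 (Real.rpow_nonneg hy0.le (-(96/91) : ℝ))
        linarith
      have g3 : 3 ≤ C := by rw [hC]; linarith
      exact mul_le_mul g3 g2 (Real.exp_pos _).le (by linarith)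

end TH992.V
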