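import Pool.Agent.TH992.V.LT3

/-!
Tails of the volume of the largest cluster: the full range.
-/

set_option autoImplicit false

namespace TH992.V

open H974 Finset Filter Topology TH992.T MeasureTheory
open Pool.Agent.H160R2.CV

theorem many_f {ι : Type*} {S : Finset Edg} {κ : ℝ} (hκ : 0 ≤ κ) (J : Finset ι)
    (A : ι → Finset Edg → Prop) (hinc : ∀ i, IncrE S (A i)) (h : ∀ i ∈ J, κ ≤ Pr P S (A i)) :
    κ ^ J.card ≤ Pr P S (fun F => ∀ i ∈ J, A i F) := by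
  classical
  induction J using Finset.induction_on with
  | empty =>
    rw [card_empty, pow_zero]
    refine le_of_eq ?_
    symm
    exact Pr_true _ (fun F _ i hi => absurd hi (Finset.notMem_empty i))
  | insert i J hi ih =>
    have ih' := ih (fun j hj => h j (mem_insert_of_mem hj))
    have h1 := h i (mem_insert_self i J)
    have h2 := Pr_harris w_ok (S := S) (A := A i) (B := fun F => ∀ j ∈ J, A j F) (hinc i)
      (fun F G h h' hF j hj => hinc j F G h h' (hF j hj))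
    rw [card_insert_of_notMem hi, pow_succ, mul_comm]
    refine (mul_le_mul h1 ih' (pow_nonneg hκ _) (hκ.trans h1)).trans (h2.trans ?_)
    refine Pr_mono w_ok fun F _ hF j hj => ?_
    rw [mem_insert] at hj
    rcases hj with hj | hj
    · rw [hj]; exact hF.1
    · exact hF.2 j hj

theorem full_row (n : ℕ) : ∀ k : ℕ, k ≤ 2 * n →
    Reach ((↑(boxE n) : Set Edg) ∩ ↑(boxE n)) (-(n : ℤ), -(n : ℤ)) (-(n : ℤ) + k, -(n : ℤ)) := by
  intro k
  induction k with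
  | zero => intro _; simpa using Reach.refl _ _
  | succ k ih =>
    intro hk
    refine (ih (by omega)).tail ⟨(-(n : ℤ) + k, -(n : ℤ), true), ?_, Or.inl ⟨rfl, ?_⟩⟩
    · rw [Set.inter_self, mem_coe]
      unfold boxE
      rw [mem_RE_true]
      omega
    · rw [tgt_true]
      push_cast
      rw [add_assoc]

theorem full_col (n : ℕ) {x : ℤ} (hx1 : -(n : ℤ) ≤ x) (hx2 : x ≤ n) : ∀ k : ℕ, k ≤ 2 * n →
    Reach ((↑(boxE n) : Set Edg) ∩ ↑(boxE n)) (x, -(n : ℤ)) (x, -(n : ℤ) + k) := by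
  intro k
  induction k with
  | zero => intro _; simpa using Reach.refl _ _
  | succ k ih =>
    intro hk
    refine (ih (by omega)).tail ⟨(x, -(n : ℤ) + k, false), ?_, Or.inl ⟨rfl, ?_⟩⟩
    · rw [Set.inter_self, mem_coe]
      unfold boxE
      rw [mem_RE_false]
      omega
    · rw [tgt_false]
      push_cast
      rw [add_assoc]

theorem full_big (n : ℕ) : Big ((2 * (n : ℝ) + 1) ^ 2) n (boxE n) := by
  refine ⟨(-(n : ℤ), -(n : ℤ)), by rw [w_mem_bx]; simp only; omega, bx n,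
    (w_card_bx n).ge, fun u hu => ?_⟩
  obtain ⟨x, y⟩ := u
  rw [w_mem_bx] at hu
  simp only at hu
  obtain ⟨i, hi⟩ := Int.eq_ofNat_of_zero_le (show 0 ≤ x + n by omega)
  obtain ⟨k, hk⟩ := Int.eq_ofNat_of_zero_le (show 0 ≤ y + n by omega)
  have h1 := full_row n i (by omega)
  have h2 := full_col n hu.1.1 hu.1.2 k (by omega)
  have e1 : -(n : ℤ) + i = x := by omega
  have e2 : -(n : ℤ) + k = y := by omega
  rw [e1] at h1
  rw [e2] at h2
  exact h1.trans h2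

/-- all edges open -/
theorem all_open (n : ℕ) : (1 / 2 : ℝ) ^ (boxE n).card ≤
    Pr P (boxE n) (Big ((2 * (n : ℝ) + 1) ^ 2) n) := by
  have h2 := many_f (S := boxE n) (κ := 1/2) (by norm_num) (boxE n) (fun e F => e ∈ F)
    (fun e F G h _ hF => h hF) (fun e he => (Pr_mem he).ge)
  refine h2.trans (Pr_mono w_ok fun F hF h => ?_)
  have : F = boxE n := Finset.Subset.antisymm hF fun e he => h e he
  rw [this]
  exact full_big n

theorem half_exp (n : ℕ) (hn : 1 ≤ n) : Real.exp (-(18 * (n : ℝ) ^ 2)) ≤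
    (1 / 2 : ℝ) ^ (boxE n).card := by
  have hn1 : (1 : ℝ) ≤ n := by exact_mod_cast hn
  have h3 : ((boxE n).card : ℝ) ≤ 18 * (n : ℝ) ^ 2 := by
    have h4 : ((boxE n).card : ℝ) ≤ (2 * (n : ℝ) + 1) * ((2 * n + 1) * 2) := by
      exact_mod_cast card_boxE n
    nlinarith
  have h6 : Real.exp (-1) ≤ 1 / 2 := by
    rw [Real.exp_neg, one_div]
    refine inv_anti₀ (by norm_num) ?_
    have := Real.add_one_le_exp (1 : ℝ)
    linarith
  have h7 : Real.exp (-1) ^ (boxE n).card ≤ (1 / 2 : ℝ) ^ (boxE n).card :=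
    pow_le_pow_left₀ (Real.exp_pos _).le h6 _
  refine le_trans ?_ h7
  rw [← Real.exp_nat_mul]
  exact Real.exp_le_exp.mpr (by linarith)

/-- The tails of the volume of the largest cluster, on the full range. -/
theorem main2 : ∃ c C : ℝ, 0 < c ∧ 0 < C ∧ ∀ n : ℕ, 1 ≤ n →
    (∀ x : ℝ, 0 ≤ x → (bondLaw hlf).real {ω | x * (n : ℝ) ^ (91/48 : ℝ) ≤ (maxCl n ω : ℝ)} ≤
      C * Real.exp (-(c * x ^ (96/5 : ℝ)))) ∧
    (∀ x : ℝ, 1 ≤ x → x * (n : ℝ) ^ (91/48 : ℝ) ≤ (2 * (n : ℝ) + 1) ^ 2 →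
      Real.exp (-(C * x ^ (96/5 : ℝ))) ≤
      (bondLaw hlf).real {ω | x * (n : ℝ) ^ (91/48 : ℝ) ≤ (maxCl n ω : ℝ)}) ∧
    (∀ y : ℝ, (n : ℝ) ^ (-(91/48) : ℝ) ≤ y → y ≤ 1 →
      Real.exp (-(C * y ^ (-(96/91) : ℝ))) ≤
        (bondLaw hlf).real {ω | (maxCl n ω : ℝ) ≤ y * (n : ℝ) ^ (91/48 : ℝ)} ∧
      (bondLaw hlf).real {ω | (maxCl n ω : ℝ) ≤ y * (n : ℝ) ^ (91/48 : ℝ)} ≤
        C * Real.exp (-(c * y ^ (-(96/91) : ℝ)))) ∧
    ∀ ω, 1 ≤ maxCl n ω ∧ maxCl n ω ≤ (2 * n + 1) ^ 2 := by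
  obtain ⟨c, C, hc, hC, h⟩ := main
  obtain ⟨K, hK⟩ : ∃ K : ℝ, K = (c ^ (96/5 : ℝ))⁻¹ := ⟨_, rfl⟩
  have hK0 : 0 < K := by rw [hK]; positivity
  refine ⟨c, C + 18 * K, hc, by positivity, fun n hn => ?_⟩
  obtain ⟨h1, h2, h3⟩ := h n hn
  have hn0 : (0 : ℝ) < n := by exact_mod_cast hn
  refine ⟨fun x hx => (h1 x hx).trans ?_, fun x hx hxn => ?_, fun y hy hy1 => ?_, fun ω => ?_⟩
  · exact mul_le_mul_of_nonneg_right (by linarith) (Real.exp_pos _).le
  · rcases le_or_gt x (c * (n : ℝ) ^ (5/48 : ℝ)) with h4 | h4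
    · refine le_trans (Real.exp_le_exp.mpr ?_) (h2 x hx h4)
      have : 0 ≤ x ^ (96/5 : ℝ) := Real.rpow_nonneg (by linarith) _
      nlinarith
    · rw [law_ge]
      have h5 := all_open n
      refine le_trans ?_ ((half_exp n hn).trans (h5.trans
        (Pr_mono w_ok fun F _ hF => X_big_mono hxn hF)))
      refine Real.exp_le_exp.mpr ?_
      have h6 : (n : ℝ) ^ 2 ≤ K * x ^ (96/5 : ℝ) := by
        have h7 : (c * (n : ℝ) ^ (5/48 : ℝ)) ^ (96/5 : ℝ) ≤ x ^ (96/5 : ℝ) :=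
          Real.rpow_le_rpow (by positivity) h4.le (by norm_num)
        have h8 : (c * (n : ℝ) ^ (5/48 : ℝ)) ^ (96/5 : ℝ) = c ^ (96/5 : ℝ) * (n : ℝ) ^ 2 := by
          rw [Real.mul_rpow hc.le (by positivity), ← Real.rpow_mul hn0.le, ← Real.rpow_natCast]
          norm_num
        rw [h8] at h7
        rw [hK, le_inv_mul_iff₀ (by positivity)]
        exact h7
      have : 0 ≤ C * x ^ (96/5 : ℝ) := by positivity
      nlinarith
  · obtain ⟨h4, h5⟩ := h3 y hy hy1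
    constructor
    · refine le_trans (Real.exp_le_exp.mpr ?_) h4
      have hy0 : 0 < y := lt_of_lt_of_le (Real.rpow_pos_of_pos hn0 _) hy
      have : 0 ≤ y ^ (-(96/91) : ℝ) := Real.rpow_nonneg hy0.le _
      nlinarith
    · exact h5.trans (mul_le_mul_of_nonneg_right (by linarith) (Real.exp_pos _).le)
  · refine ⟨Y_one_le_max n ω, (Y_max_le n ω).trans (le_of_eq ?_)⟩
    have h4 := w_card_bx n
    have h5 : ((bx n).card : ℝ) = (((2 * n + 1) ^ 2 : ℕ) : ℝ) := by rw [h4]; push_cast; ring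
    exact_mod_cast h5

end TH992.V
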