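import Pool.Agent.TH992.V.Up2
import Pool.Agent.TH992.T.Low1

/-!
A net of open crossings at scale `a`.
-/

set_option autoImplicit false

namespace TH992.V

open H974 Finset Filter Topology TH992.T
open Pool.Agent.H160R2.CV
open Pool.Agent.H160R2.CV.Quad (bo LA LA_of_far far_of_LA LA_of_reach pr_LA)

/-- position of the strips -/
def rs (n a i : ℕ) : ℤ := -(n : ℤ) + ((10 * a * i : ℕ) : ℤ)

/-- open crossings of the horizontal and of the vertical strips -/
def Net (n a I : ℕ) (F : Finset Edg) : Prop :=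
  (∀ i < I, LRc (-(n : ℤ)) n (rs n a i) (rs n a i + a) F) ∧
    ∀ i < I, TBc (rs n a i) (rs n a i + a) (-(n : ℤ)) n F

/-- the strips are in the box -/
def Fits (n a I : ℕ) : Prop := 10 * a * I ≤ 2 * n

theorem rs_in {n a I : ℕ} (h : Fits n a I) {i : ℕ} (hi : i < I) :
    -(n : ℤ) ≤ rs n a i ∧ rs n a i + 10 * a ≤ n := by
  unfold Fits at h
  unfold rs
  have h1 : 10 * a * (i + 1) ≤ 10 * a * I := Nat.mul_le_mul_left _ hi
  have h2 : 10 * a * (i + 1) = 10 * a * i + 10 * a := by ring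
  omega

theorem many {S : Finset Edg} {κ : ℝ} (hκ : 0 ≤ κ) (I : ℕ) (A : ℕ → Finset Edg → Prop)
    (hinc : ∀ i, IncrE S (A i)) (h : ∀ i < I, κ ≤ Pr P S (A i)) :
    κ ^ I ≤ Pr P S (fun F => ∀ i < I, A i F) := by
  induction I with
  | zero =>
    rw [pow_zero]
    refine le_of_eq ?_
    symm
    exact Pr_true _ (fun F _ i hi => absurd hi (Nat.not_lt_zero i))
  | succ I ih =>
    have ih' := ih (fun i hi => h i (by omega))
    have h1 := h I (by omega)
    have h2 := Pr_harris w_ok (S := S) (A := fun F => ∀ i < I, A i F) (B := A I)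
      (fun F G h h' hF i hi => hinc i F G h h' (hF i hi)) (hinc I)
    rw [pow_succ]
    refine (mul_le_mul ih' h1 hκ ((pow_nonneg hκ _).trans ih')).trans (h2.trans ?_)
    refine Pr_mono w_ok fun F _ hF i hi => ?_
    rcases Nat.lt_succ_iff_lt_or_eq.mp hi with h4 | h4
    · exact hF.1 i h4
    · rw [h4]; exact hF.2

theorem Net_incr (S : Finset Edg) (n a I : ℕ) : IncrE S (Net n a I) :=
  fun _ _ h _ hF => ⟨fun i hi => (hF.1 i hi).mono h, fun i hi => (hF.2 i hi).mono h⟩

theorem Net_pr {n a I : ℕ} (ha : 1 ≤ a) (hn : 1 ≤ n) (hI : Fits n a I) {m : ℕ}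
    (hm : 2 * (n : ℤ) ≤ 8 * (a : ℤ) * m + 8 * a) :
    q0 ^ ((2 * m + 1) * (2 * I)) ≤ Pr P (boxE n) (Net n a I) := by
  have ha' : (1 : ℤ) ≤ a := by exact_mod_cast ha
  have hn' : (1 : ℤ) ≤ n := by exact_mod_cast hn
  have h1 := many (S := boxE n) (κ := q0 ^ (2 * m + 1)) (pow_nonneg q0_pos.le _) I
    (fun i => LRc (-(n : ℤ)) n (rs n a i) (rs n a i + a)) (fun i => LRc_incr _ _ _ _ _)
    (fun i hi => by
      have hr := rs_in hI hi
      unfold P
      rw [pr_LRc]
      · have e1 : (n : ℤ) - -(n : ℤ) = 2 * n := by ring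
        have e2 : rs n a i + a - rs n a i = a := by ring
        rw [e1, e2]
        exact hh_wide (by omega) ha' hm
      · unfold boxE
        exact LRE_subset_RE.trans (RE_subset le_rfl le_rfl (by omega) (by omega)))
  have h2 := many (S := boxE n) (κ := q0 ^ (2 * m + 1)) (pow_nonneg q0_pos.le _) I
    (fun i => TBc (rs n a i) (rs n a i + a) (-(n : ℤ)) n) (fun i => TBc_incr _ _ _ _ _)
    (fun i hi => by
      have hr := rs_in hI hi
      unfold P
      rw [pr_TBc]
      · have e1 : (n : ℤ) - -(n : ℤ) = 2 * n := by ring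
        have e2 : rs n a i + a - rs n a i = a := by ring
        rw [e1, e2]
        exact hh_wide (by omega) ha' hm
      · unfold boxE
        exact TBE_subset_RE.trans (RE_subset (by omega) (by omega) le_rfl le_rfl))
  have h3 := Pr_harris w_ok (S := boxE n)
    (A := fun F => ∀ i < I, LRc (-(n : ℤ)) n (rs n a i) (rs n a i + a) F)
    (B := fun F => ∀ i < I, TBc (rs n a i) (rs n a i + a) (-(n : ℤ)) n F)
    (fun F G h h' hF i hi => (hF i hi).mono h) (fun F G h h' hF i hi => (hF i hi).mono h)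
  have e : q0 ^ ((2 * m + 1) * (2 * I)) = (q0 ^ (2 * m + 1)) ^ I * (q0 ^ (2 * m + 1)) ^ I := by
    rw [← pow_mul, ← pow_add]; congr 1; ring
  rw [e]
  have hp : 0 ≤ (q0 ^ (2 * m + 1)) ^ I := pow_nonneg (pow_nonneg q0_pos.le _) _
  exact (mul_le_mul h1 h2 hp (hp.trans h1)).trans h3

theorem TBE_RE {a b c d : ℤ} : TBE a b c d ⊆ RE a b c d := TBE_subset_RE

/-- horizontal and vertical crossings are connected -/
theorem net_cross {n a I : ℕ} (ha : 1 ≤ a) (hI : Fits n a I) {F : Finset Edg} {i k : ℕ}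
    (hi : i < I) (hk : k < I) {y1 y2 x1 x2 : ℤ}
    (h1 : Reach (↑F ∩ ↑(LRE (-(n : ℤ)) n (rs n a i) (rs n a i + a))) (-(n : ℤ), y1) ((n : ℤ), y2))
    (h2 : Reach (↑F ∩ ↑(TBE (rs n a k) (rs n a k + a) (-(n : ℤ)) n)) (x1, -(n : ℤ)) (x2, (n : ℤ))) :
    Reach (↑F ∩ ↑(boxE n)) (x1, -(n : ℤ)) (-(n : ℤ), y1) := by
  have hri := rs_in hI hi
  have hrk := rs_in hI hk
  have ha' : (1 : ℤ) ≤ a := by exact_mod_cast ha
  refine H984P.meet_gen (p := rs n a k) (q := rs n a k + a) (c := rs n a i) (d := rs n a i + a)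
    (by omega) (by omega) (V := TBE (rs n a k) (rs n a k + a) (-(n : ℤ)) n)
    (Hh := LRE (-(n : ℤ)) n (rs n a i) (rs n a i + a)) ?_ ?_ ?_ ?_ ?_ ?_ ?_
    h2 (by simp only; omega) (by simp only; omega) h1 (by simp only; omega) (by simp only; omega)
  · unfold boxE
    exact TBE_subset_RE.trans (RE_subset (by omega) (by omega) le_rfl le_rfl)
  · unfold boxE
    exact LRE_subset_RE.trans (RE_subset le_rfl le_rfl (by omega) (by omega))
  · unfold boxE
    exact RE_subset (by omega) (by omega) (by omega) (by omega)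
  · intro x y h; simp only [mem_TBE_false] at h; omega
  · intro x y h; simp only [mem_TBE_true] at h; omega
  · intro x y h; simp only [mem_LRE_true] at h; omega
  · intro x y h; simp only [mem_LRE_false] at h; omega

theorem idx_below {n a : ℕ} (ha : 1 ≤ a) {t : ℤ} (h1 : -(n : ℤ) + 20 * a ≤ t)
    (h2 : t ≤ (n : ℤ) - 20 * a) :
    ∃ i < 2 * n / (10 * a), t - 11 * a ≤ rs n a i ∧ rs n a i + a ≤ t := by
  obtain ⟨u, hu⟩ := Int.eq_ofNat_of_zero_le (show 0 ≤ t - a + n by omega)
  have ha' : 0 < 10 * a := by omega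
  have e1 := Nat.div_add_mod u (10 * a)
  have e2 := Nat.mod_lt u ha'
  refine ⟨u / (10 * a), ?_, ?_, ?_⟩
  · have e3 := Nat.div_add_mod (2 * n) (10 * a)
    have e4 := Nat.mod_lt (2 * n) ha'
    by_contra hcon
    push Not at hcon
    have e5 : 10 * a * (2 * n / (10 * a)) ≤ 10 * a * (u / (10 * a)) := Nat.mul_le_mul_left _ hcon
    omega
  · unfold rs
    omega
  · unfold rs
    omega

theorem idx_above {n a : ℕ} (ha : 1 ≤ a) {t : ℤ} (h1 : -(n : ℤ) + 20 * a ≤ t)
    (h2 : t ≤ (n : ℤ) - 20 * a) :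
    ∃ i < 2 * n / (10 * a), t ≤ rs n a i ∧ rs n a i + a ≤ t + 11 * a := by
  obtain ⟨u, hu⟩ := Int.eq_ofNat_of_zero_le (show 0 ≤ t + n by omega)
  have ha' : 0 < 10 * a := by omega
  have e1 := Nat.div_add_mod u (10 * a)
  have e2 := Nat.mod_lt u ha'
  have e6 : 10 * a * (u / (10 * a) + 1) = 10 * a * (u / (10 * a)) + 10 * a := by ring
  refine ⟨u / (10 * a) + 1, ?_, ?_, ?_⟩
  · have e3 := Nat.div_add_mod (2 * n) (10 * a)
    have e4 := Nat.mod_lt (2 * n) ha'
    by_contra hcon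
    push Not at hcon
    have e5 : 10 * a * (2 * n / (10 * a)) ≤ 10 * a * (u / (10 * a) + 1) :=
      Nat.mul_le_mul_left _ hcon
    omega
  · unfold rs
    omega
  · unfold rs
    omega

/-- all arms are connected to the same vertex -/
theorem net_arm {n a : ℕ} (ha : 1 ≤ a) (hn : 20 * a ≤ n) {F : Finset Edg}
    (hF : Net n a (2 * n / (10 * a)) F) :
    ∃ z : Vtx, ∀ v ∈ bx (n - 20 * a), LA v (11 * a) F → Reach (↑F ∩ ↑(boxE n)) v z := by
  obtain ⟨I, hI⟩ : ∃ I : ℕ, I = 2 * n / (10 * a) := ⟨_, rfl⟩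
  rw [← hI] at hF
  have hfit : Fits n a I := by unfold Fits; rw [hI]; exact Nat.mul_div_le _ _
  have ha' : (1 : ℤ) ≤ a := by exact_mod_cast ha
  have h0 : 0 < I := by
    rw [hI]
    exact Nat.div_pos (by omega) (by omega)
  obtain ⟨x0, x0', -, -, hx0⟩ := hF.2 0 h0
  obtain ⟨y0, y0', -, -, hy0⟩ := hF.1 0 h0
  refine ⟨(x0, -(n : ℤ)), fun v hv hA => ?_⟩
  rw [w_mem_bx] at hv
  have hc : ((n - 20 * a : ℕ) : ℤ) = (n : ℤ) - 20 * a := by omega
  rw [hc] at hv
  obtain ⟨w, k1, k2, k3⟩ := hA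
  unfold inR at k1
  have hbo : bo v (11 * a) ⊆ boxE n := by
    unfold bo boxE
    refine RE_subset ?_ ?_ ?_ ?_ <;> push_cast <;> omega
  have k3' : Reach (↑F ∩ ↑(boxE n)) v w :=
    k3.mono (Set.inter_subset_inter_right _ (by exact_mod_cast hbo))
  push_cast at k1 k2
  -- horizontal strips
  have hor : ∀ i < I, v.2 - 11 * a ≤ rs n a i → rs n a i + a ≤ v.2 + 11 * a →
      ∀ u u' : Vtx, Reach (↑F ∩ ↑(bo v (11 * a))) u u' → u.2 ≤ rs n a i →
      rs n a i + a ≤ u'.2 → Reach (↑F ∩ ↑(boxE n)) u (x0, -(n : ℤ)) := by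
    intro i hi hb1 hb2 u u' hr hu hu'
    have hri := rs_in hfit hi
    obtain ⟨y1, y2, -, -, hy⟩ := hF.1 i hi
    have e2 := net_cross ha hfit hi h0 hy hx0
    have e1 : Reach (↑F ∩ ↑(boxE n)) u (-(n : ℤ), y1) := by
      refine H984P.meet_gen (p := v.1 - 11 * a) (q := v.1 + 11 * a) (c := rs n a i)
        (d := rs n a i + a) (by omega) (by omega) (V := bo v (11 * a))
        (Hh := LRE (-(n : ℤ)) n (rs n a i) (rs n a i + a)) hbo ?_ ?_ ?_ ?_ ?_ ?_
        hr hu hu' hy (by simp only; omega) (by simp only; omega)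
      · unfold boxE
        exact LRE_subset_RE.trans (RE_subset le_rfl le_rfl (by omega) (by omega))
      · unfold boxE
        exact RE_subset (by omega) (by omega) (by omega) (by omega)
      · intro x y h; simp only [bo, mem_RE_false] at h; push_cast at h; omega
      · intro x y h; simp only [bo, mem_RE_true] at h; push_cast at h; omega
      · intro x y h; simp only [mem_LRE_true] at h; omega
      · intro x y h; simp only [mem_LRE_false] at h; omega
    exact e1.trans e2.symm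
  have ver : ∀ i < I, v.1 - 11 * a ≤ rs n a i → rs n a i + a ≤ v.1 + 11 * a →
      ∀ u u' : Vtx, Reach (↑F ∩ ↑(bo v (11 * a))) u u' → u.1 ≤ rs n a i →
      rs n a i + a ≤ u'.1 → Reach (↑F ∩ ↑(boxE n)) u (x0, -(n : ℤ)) := by
    intro i hi hb1 hb2 u u' hr hu hu'
    have hri := rs_in hfit hi
    obtain ⟨x1, x2, -, -, hx⟩ := hF.2 i hi
    have e2 := net_cross ha hfit h0 hi hy0 hx
    have e3 := net_cross ha hfit h0 h0 hy0 hx0
    have e1 : Reach (↑F ∩ ↑(boxE n)) (x1, -(n : ℤ)) u := by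
      refine H984P.meet_gen (p := rs n a i) (q := rs n a i + a) (c := v.2 - 11 * a)
        (d := v.2 + 11 * a) (by omega) (by omega)
        (V := TBE (rs n a i) (rs n a i + a) (-(n : ℤ)) n) (Hh := bo v (11 * a))
        ?_ hbo ?_ ?_ ?_ ?_ ?_ hx (by simp only; omega) (by simp only; omega) hr hu hu'
      · unfold boxE
        exact TBE_subset_RE.trans (RE_subset (by omega) (by omega) le_rfl le_rfl)
      · unfold boxE
        exact RE_subset (by omega) (by omega) (by omega) (by omega)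
      · intro x y h; simp only [mem_TBE_false] at h; omega
      · intro x y h; simp only [mem_TBE_true] at h; omega
      · intro x y h; simp only [bo, mem_RE_true] at h; push_cast at h; omega
      · intro x y h; simp only [bo, mem_RE_false] at h; push_cast at h; omega
    exact e1.symm.trans (e2.trans e3.symm)
  rcases k2 with k2 | k2 | k2 | k2
  · obtain ⟨i, hi, hi1, hi2⟩ := idx_below (n := n) ha (t := v.1) (by omega) (by omega)
    rw [← hI] at hi
    exact k3'.trans (ver i hi hi1 (by omega) w v k3.symm (by omega) hi2)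
  · obtain ⟨i, hi, hi1, hi2⟩ := idx_above (n := n) ha (t := v.1) (by omega) (by omega)
    rw [← hI] at hi
    exact ver i hi (by omega) hi2 v w k3 hi1 (by omega)
  · obtain ⟨i, hi, hi1, hi2⟩ := idx_below (n := n) ha (t := v.2) (by omega) (by omega)
    rw [← hI] at hi
    exact k3'.trans (hor i hi hi1 (by omega) w v k3.symm (by omega) hi2)
  · obtain ⟨i, hi, hi1, hi2⟩ := idx_above (n := n) ha (t := v.2) (by omega) (by omega)
    rw [← hI] at hi
    exact hor i hi (by omega) hi2 v w k3 hi1 (by omega)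

end TH992.V
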