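import Pool.Agent.TH992.V.Low1

/-!
Lower bound for the upper tail of the volume of the largest cluster.
-/

set_option autoImplicit false

namespace TH992.V

open H974 Finset Filter Topology TH992.T
open Pool.Agent.H160R2.CV
open Pool.Agent.H160R2.CV.Quad (bo LA LA_of_far far_of_LA LA_of_reach pr_LA LA_inc)

/-- pairs of connected vertices -/
noncomputable def QQ (n : ℕ) (F : Finset Edg) : ℝ :=
  ∑ w ∈ bx n, ∑ u ∈ bx n, ind (Reach (↑F) w u)

theorem QQ_ex : ∃ C : ℝ, 0 < C ∧ ∀ n : ℕ, 1 ≤ n →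
    Ex P (boxE n) (QQ n) ≤ C * ((n : ℝ) ^ 2 * ar n) ^ 2 := by
  obtain ⟨C1, hC1, h1⟩ := w_two
  obtain ⟨C2, hC2, h2⟩ := ar_sum_sq
  refine ⟨288 * C1 * C2, by positivity, fun n hn => ?_⟩
  have hn1 : (1 : ℝ) ≤ n := by exact_mod_cast hn
  have han := ar_pos n
  have hinner : ∀ w ∈ bx n, ∑ u ∈ bx n, Pr P (boxE n) (fun F => Reach (↑F) w u) ≤
      32 * C1 * C2 * ((n : ℝ) ^ 2 * ar n ^ 2) := by
    intro w hw
    calc ∑ u ∈ bx n, Pr P (boxE n) (fun F => Reach (↑F) w u)
        ≤ ∑ u ∈ bx n, C1 * ar (nv (u - w)) ^ 2 := Finset.sum_le_sum fun u _ => h1 _ w u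
      _ = C1 * ∑ u ∈ bx n, ar (nv (u - w)) ^ 2 := by rw [Finset.mul_sum]
      _ ≤ C1 * (8 * ∑ k ∈ range (2 * n + 1), ((k : ℝ) + 1) * ar k ^ 2) := by
          apply mul_le_mul_of_nonneg_left
            (sum_bx_shift n w hw (fun k => ar k ^ 2) (fun k => sq_nonneg _)) hC1.le
      _ ≤ C1 * (8 * (C2 * (((2 * n : ℕ) : ℝ) ^ 2 * ar (2 * n) ^ 2))) := by
          apply mul_le_mul_of_nonneg_left _ hC1.le
          apply mul_le_mul_of_nonneg_left (h2 (2 * n) (by omega)) (by norm_num)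
      _ ≤ C1 * (8 * (C2 * (((2 * n : ℕ) : ℝ) ^ 2 * ar n ^ 2))) := by
          apply mul_le_mul_of_nonneg_left _ hC1.le
          apply mul_le_mul_of_nonneg_left _ (by norm_num)
          apply mul_le_mul_of_nonneg_left _ hC2.le
          apply mul_le_mul_of_nonneg_left _ (by positivity)
          exact pow_le_pow_left₀ (ar_pos _).le (ar_anti (by omega)) 2
      _ = 32 * C1 * C2 * ((n : ℝ) ^ 2 * ar n ^ 2) := by push_cast; ring
  have e1 : Ex P (boxE n) (QQ n) =
      ∑ w ∈ bx n, ∑ u ∈ bx n, Pr P (boxE n) (fun F => Reach (↑F) w u) := by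
    unfold QQ
    rw [Ex_sum]
    refine Finset.sum_congr rfl fun w _ => ?_
    rw [Ex_sum]
    rfl
  rw [e1]
  calc ∑ w ∈ bx n, ∑ u ∈ bx n, Pr P (boxE n) (fun F => Reach (↑F) w u)
      ≤ ∑ w ∈ bx n, 32 * C1 * C2 * ((n : ℝ) ^ 2 * ar n ^ 2) := Finset.sum_le_sum hinner
    _ = (2 * (n : ℝ) + 1) ^ 2 * (32 * C1 * C2 * ((n : ℝ) ^ 2 * ar n ^ 2)) := by
        rw [Finset.sum_const, nsmul_eq_mul, w_card_bx]
    _ ≤ (9 * (n : ℝ) ^ 2) * (32 * C1 * C2 * ((n : ℝ) ^ 2 * ar n ^ 2)) := by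
        apply mul_le_mul_of_nonneg_right _ (by positivity)
        nlinarith
    _ = _ := by ring

/-- Paley–Zygmund on the net -/
theorem pz_net {n a : ℕ} (ha : 1 ≤ a) (hn : 20 * a ≤ n) :
    (((bx (n - 20 * a)).card : ℝ) * ar (11 * a) / 2 *
      Pr P (boxE n) (Net n a (2 * n / (10 * a)))) ^ 2 ≤
      Ex P (boxE n) (QQ n) *
        Pr P (boxE n) (Big (((bx (n - 20 * a)).card : ℝ) * ar (11 * a) / 2) n) := by
  classical
  obtain ⟨I, hI⟩ : ∃ I : ℕ, I = 2 * n / (10 * a) := ⟨_, rfl⟩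
  obtain ⟨W, hW⟩ : ∃ W : Finset Vtx, W = bx (n - 20 * a) := ⟨_, rfl⟩
  rw [← hI, ← hW]
  obtain ⟨μ, hμ⟩ : ∃ μ : ℝ, μ = (W.card : ℝ) * ar (11 * a) := ⟨_, rfl⟩
  rw [← hμ]
  have hWpos : 0 < (W.card : ℝ) := by
    have : 0 < W.card := card_pos.mpr (by rw [hW]; exact InfMax.bx_ne _)
    exact_mod_cast this
  have hμ0 : 0 < μ := by rw [hμ]; exact mul_pos hWpos (ar_pos _)
  obtain ⟨Nf, hNf⟩ : ∃ Nf : Finset Edg → ℝ,
    Nf = fun F => ∑ v ∈ W, ind (LA v (11 * a) F ∧ Net n a I F) := ⟨_, rfl⟩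
  -- first moment
  have h1 : μ * Pr P (boxE n) (Net n a I) ≤ Ex P (boxE n) Nf := by
    rw [hNf, Ex_sum, hμ, mul_assoc, ← nsmul_eq_mul, ← sum_const]
    refine sum_le_sum fun v hv => ?_
    have h2 : ar (11 * a) ≤ Pr P (boxE n) (LA v (11 * a)) := by
      have h3 := far_ge (S := boxE n) (n := n - 20 * a) (r := 11 * a) (boxE_mono (by omega))
        (v := v) (by rw [← hW]; exact hv)
      exact h3.trans (Pr_mono w_ok fun F _ hF => LA_of_far le_rfl hF)
    have h4 := Pr_harris w_ok (S := boxE n) (A := LA v (11 * a)) (B := Net n a I)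
      (fun F G h _ hF => LA_inc v (11 * a) F G h hF) (Net_incr _ _ _ _)
    exact (mul_le_mul_of_nonneg_right h2 (Pr_nonneg w_ok _ _)).trans h4
  -- the set of the counted vertices
  have hbig : ∀ F, μ / 2 ≤ Nf F → Big (μ / 2) n F := by
    intro F hF
    have hnet : Net n a I F := by
      by_contra hcon
      have : Nf F = 0 := by
        rw [hNf]
        exact sum_eq_zero fun v _ => ind_not_of fun h => hcon h.2
      linarith
    rw [hI] at hnet
    obtain ⟨z, hz⟩ := net_arm ha hn hnet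
    rw [← hW] at hz
    have hcard : Nf F ≤ ((W.filter (fun v => LA v (11 * a) F)).card : ℝ) := by
      rw [← w_sum_ind, hNf]
      exact sum_le_sum fun v _ => ind_mono fun h => h.1
    have hne : (W.filter (fun v => LA v (11 * a) F)).Nonempty := by
      rw [nonempty_iff_ne_empty]
      intro h
      rw [h] at hcard
      simp at hcard
      linarith
    obtain ⟨v0, hv0⟩ := hne
    rw [mem_filter] at hv0
    refine ⟨v0, ?_, _, hF.trans hcard, fun u hu => ?_⟩
    · have := hv0.1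
      rw [hW, w_mem_bx] at this
      rw [w_mem_bx]
      omega
    · rw [mem_filter] at hu
      exact (hz v0 hv0.1 hv0.2).trans (hz u hu.1 hu.2).symm
  have hsq : ∀ F, Nf F ^ 2 ≤ QQ n F := by
    intro F
    by_cases hnet : Net n a I F
    · have hnet' := hnet
      rw [hI] at hnet'
      obtain ⟨z, hz⟩ := net_arm ha hn hnet'
      rw [← hW] at hz
      have hsub : W ⊆ bx n := by
        intro u hu
        rw [hW, w_mem_bx] at hu
        rw [w_mem_bx]
        omega
      have e : Nf F = ∑ v ∈ W, ind (LA v (11 * a) F ∧ Net n a I F) := by rw [hNf]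
      rw [e, sq, sum_mul_sum]
      unfold QQ
      refine le_trans (sum_le_sum fun w hw => sum_le_sum fun u hu => ?_)
        ((sum_le_sum fun w _ => sum_le_sum_of_subset_of_nonneg hsub fun _ _ _ =>
          ind_nonneg _).trans (sum_le_sum_of_subset_of_nonneg hsub fun _ _ _ =>
          sum_nonneg fun _ _ => ind_nonneg _))
      rw [← ind_and]
      refine ind_mono ?_
      rintro ⟨⟨g1, -⟩, g2, -⟩
      exact ((hz w hw g1).trans (hz u hu g2).symm).mono Set.inter_subset_left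
    · have : Nf F = 0 := by
        rw [hNf]
        exact sum_eq_zero fun v _ => ind_not_of fun h => hnet h.2
      rw [this]
      unfold QQ
      simp only [ne_eq, OfNat.ofNat_ne_zero, not_false_eq_true, zero_pow]
      exact sum_nonneg fun _ _ => sum_nonneg fun _ _ => ind_nonneg _
  have h2 : Ex P (boxE n) Nf ≤ μ / 2 * Pr P (boxE n) (Net n a I) +
      Ex P (boxE n) (fun F => Nf F * ind (Big (μ / 2) n F)) := by
    unfold Pr
    rw [← Ex_mul_left, ← Ex_add]
    refine Ex_mono w_ok fun F _ => ?_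
    by_cases hB : Big (μ / 2) n F
    · rw [ind_of hB, mul_one]
      have := ind_nonneg (Net n a I F)
      have h3 : 0 ≤ μ / 2 * ind (Net n a I F) := by positivity
      linarith
    · rw [ind_not_of hB, mul_zero, add_zero]
      have h4 : Nf F < μ / 2 := by
        by_contra hcon
        push Not at hcon
        exact hB (hbig F hcon)
      by_cases hnet : Net n a I F
      · rw [ind_of hnet]; linarith
      · have : Nf F = 0 := by
          rw [hNf]
          exact sum_eq_zero fun v _ => ind_not_of fun h => hnet h.2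
        rw [this, ind_not_of hnet]; simp
  have h3 : μ / 2 * Pr P (boxE n) (Net n a I) ≤
      Ex P (boxE n) (fun F => Nf F * ind (Big (μ / 2) n F)) := by linarith
  have h4 := Ex_cs w_ok (boxE n) Nf (fun F => ind (Big (μ / 2) n F))
  have h5 : Ex P (boxE n) (fun F => (ind (Big (μ / 2) n F)) ^ 2) =
      Pr P (boxE n) (Big (μ / 2) n) := by
    unfold Pr
    refine Ex_congr fun F _ => ?_
    rw [sq, ind_sq]
  rw [h5] at h4
  have hpr : 0 ≤ Pr P (boxE n) (Net n a I) := Pr_nonneg w_ok _ _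
  calc (μ / 2 * Pr P (boxE n) (Net n a I)) ^ 2
      ≤ (Ex P (boxE n) (fun F => Nf F * ind (Big (μ / 2) n F))) ^ 2 :=
        pow_le_pow_left₀ (by positivity) h3 2
    _ ≤ _ := h4
    _ ≤ _ := mul_le_mul_of_nonneg_right (Ex_mono w_ok fun F _ => hsq F) (Pr_nonneg w_ok _ _)

end TH992.V
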