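import Pool.Agent.TH992.V.Low2
import Pool.Agent.TH992.T.Low4

/-!
Lower bound for the upper tail of the volume of the largest cluster: choice of the scale.
-/

set_option autoImplicit false

namespace TH992.V

open H974 Finset Filter Topology TH992.T
open Pool.Agent.H160R2.CV
open Pool.Agent.H160R2.CV.Quad (bo LA LA_of_far far_of_LA LA_of_reach pr_LA LA_inc)

/-- Lower bound of the probability of a large cluster, at scale `a`. -/
theorem vol_low_scale : ∃ K1 : ℝ, 0 < K1 ∧ ∀ n a : ℕ, 1 ≤ a → 40 * a ≤ n →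
    Real.exp (-(K1 * ((n : ℝ) / a) ^ 2)) ≤
      Pr P (boxE n) (Big ((n : ℝ) ^ 2 * ar (11 * a) / 2) n) := by
  obtain ⟨C, hC, hQ⟩ := QQ_ex
  have hcc : 0 < 1 / (4 * C) := by positivity
  refine ⟨|Real.log (1 / (4 * C))| + (1 - 2 * Real.log q0), by
    have := log_q0
    have := abs_nonneg (Real.log (1 / (4 * C)))
    linarith, ?_⟩
  intro n a ha han
  have haR : (1 : ℝ) ≤ a := by exact_mod_cast ha
  have ha0 : (0 : ℝ) < a := by linarith
  have hn1 : 1 ≤ n := by omega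
  have hn0 : (0 : ℝ) < n := by exact_mod_cast hn1
  have hanR : 40 * (a : ℝ) ≤ n := by exact_mod_cast han
  have key := pz_net (n := n) ha (by omega)
  obtain ⟨m, hm⟩ : ∃ m : ℕ, m = n / (4 * a) := ⟨_, rfl⟩
  have hm1 : 4 * a * m ≤ n := by rw [hm]; exact Nat.mul_div_le _ _
  have hm2 : n < 4 * a * (m + 1) := by rw [hm]; exact Nat.lt_mul_div_succ _ (by omega)
  obtain ⟨I, hI⟩ : ∃ I : ℕ, I = 2 * n / (10 * a) := ⟨_, rfl⟩
  have hI1 : 10 * a * I ≤ 2 * n := by rw [hI]; exact Nat.mul_div_le _ _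
  have hnet := Net_pr (n := n) (a := a) (I := I) ha hn1 (by unfold Fits; exact hI1) (m := m) (by
    have h1 : (n : ℤ) < 4 * a * (m + 1) := by exact_mod_cast hm2
    linarith)
  rw [← hI] at key
  obtain ⟨r, hr⟩ : ∃ r : ℝ, r = (n : ℝ) / a := ⟨_, rfl⟩
  have hr40 : 40 ≤ r := by rw [hr, le_div_iff₀ ha0]; exact hanR
  rw [← hr]
  have hmr : 4 * (m : ℝ) ≤ r := by
    rw [hr, le_div_iff₀ ha0]
    have : ((4 * a * m : ℕ) : ℝ) ≤ n := by exact_mod_cast hm1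
    push_cast at this
    linarith
  have hIr : 10 * (I : ℝ) ≤ 2 * r := by
    have : ((10 * a * I : ℕ) : ℝ) ≤ ((2 * n : ℕ) : ℝ) := by exact_mod_cast hI1
    push_cast at this
    have e : 2 * r = 2 * n / a := by rw [hr]; ring
    rw [e, le_div_iff₀ ha0]
    linarith
  have hexp : Real.exp (Real.log q0 * r ^ 2) ≤ Pr P (boxE n) (Net n a I) := by
    refine le_trans ?_ hnet
    have e : q0 ^ ((2 * m + 1) * (2 * I)) =
        Real.exp ((((2 * m + 1) * (2 * I) : ℕ) : ℝ) * Real.log q0) := by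
      rw [Real.exp_nat_mul, Real.exp_log q0_pos]
    rw [e]
    refine Real.exp_le_exp.mpr ?_
    have h9 : (((2 * m + 1) * (2 * I) : ℕ) : ℝ) ≤ r ^ 2 := by
      push_cast
      have g1 : 2 * (m : ℝ) + 1 ≤ r := by linarith
      have g2 : 2 * (I : ℝ) ≤ r := by linarith
      have g3 : (2 * (m : ℝ) + 1) * (2 * I) ≤ r * r :=
        mul_le_mul g1 g2 (by positivity) (by linarith)
      rw [sq]
      exact g3
    have h10 := log_q0
    nlinarith
  obtain ⟨PN, hPN⟩ : ∃ PN : ℝ, PN = Pr P (boxE n) (Net n a I) := ⟨_, rfl⟩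
  rw [← hPN] at hexp key
  have hPN0 : 0 < PN := lt_of_lt_of_le (Real.exp_pos _) hexp
  -- size of the inner box
  have hcard : (n : ℝ) ^ 2 ≤ ((bx (n - 20 * a)).card : ℝ) := by
    rw [w_card_bx]
    have h1 : n ≤ 2 * (n - 20 * a) := by omega
    have h2 : (n : ℝ) ≤ 2 * ((n - 20 * a : ℕ) : ℝ) := by exact_mod_cast h1
    exact pow_le_pow_left₀ hn0.le (by linarith) 2
  have hA := ar_pos (11 * a)
  have hAn := ar_pos n
  have hAm : ar n ≤ ar (11 * a) := ar_anti (by omega)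
  obtain ⟨θ, hθ⟩ : ∃ θ : ℝ, θ = ((bx (n - 20 * a)).card : ℝ) * ar (11 * a) / 2 := ⟨_, rfl⟩
  rw [← hθ] at key
  obtain ⟨PB, hPB⟩ : ∃ PB : ℝ, PB = Pr P (boxE n) (Big ((n : ℝ) ^ 2 * ar (11 * a) / 2) n) :=
    ⟨_, rfl⟩
  have hmono : Pr P (boxE n) (Big θ n) ≤ PB := by
    rw [hPB]
    refine Pr_mono w_ok fun F _ hF => X_big_mono ?_ hF
    rw [hθ]
    have := mul_le_mul_of_nonneg_right hcard hA.le
    linarith
  rw [← hPB]
  have hPB0 : 0 ≤ PB := by rw [hPB]; exact Pr_nonneg w_ok _ _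
  have h5 : 1 / (4 * C) * PN ^ 2 ≤ PB := by
    have g0 : 0 < ((n : ℝ) ^ 2 * ar n) ^ 2 := by positivity
    have g1 : ((n : ℝ) ^ 2 * ar n / 2 * PN) ^ 2 ≤ (C * ((n : ℝ) ^ 2 * ar n) ^ 2) * PB := by
      have g2 : (n : ℝ) ^ 2 * ar n / 2 * PN ≤ θ * PN := by
        refine mul_le_mul_of_nonneg_right ?_ hPN0.le
        rw [hθ]
        have := mul_le_mul hcard hAm hAn.le (by positivity)
        linarith
      refine (pow_le_pow_left₀ (by positivity) g2 2).trans (key.trans ?_)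
      exact mul_le_mul (hQ n hn1) hmono (Pr_nonneg w_ok _ _) (by positivity)
    have g3 : ((n : ℝ) ^ 2 * ar n) ^ 2 * (PN ^ 2 / 4) ≤ ((n : ℝ) ^ 2 * ar n) ^ 2 * (C * PB) := by
      have e1 : ((n : ℝ) ^ 2 * ar n / 2 * PN) ^ 2 = ((n : ℝ) ^ 2 * ar n) ^ 2 * (PN ^ 2 / 4) := by
        ring
      rw [e1] at g1
      linarith
    have g4 := le_of_mul_le_mul_left g3 g0
    rw [one_div, inv_mul_le_iff₀ (by positivity)]
    linarith
  refine le_trans ?_ h5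
  obtain ⟨Z, hZ⟩ : ∃ Z : ℝ, Z = r ^ 2 := ⟨_, rfl⟩
  rw [← hZ] at hexp ⊢
  have hZ1 : 1 ≤ Z := by rw [hZ]; nlinarith
  have h8 : Real.exp (-(1 - 2 * Real.log q0) * Z) ≤ PN ^ 2 := by
    have g1 : Real.exp (Real.log q0 * Z) ^ 2 ≤ PN ^ 2 :=
      pow_le_pow_left₀ (Real.exp_pos _).le hexp 2
    refine le_trans ?_ g1
    rw [← Real.exp_nat_mul]
    refine Real.exp_le_exp.mpr ?_
    push_cast
    nlinarith
  have h11 : Real.exp (-|Real.log (1 / (4 * C))| * Z) ≤ 1 / (4 * C) := by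
    rw [← Real.exp_log hcc]
    refine Real.exp_le_exp.mpr ?_
    rw [Real.exp_log hcc]
    have g1 := neg_abs_le (Real.log (1 / (4 * C)))
    have g2 := abs_nonneg (Real.log (1 / (4 * C)))
    nlinarith
  calc Real.exp (-((|Real.log (1 / (4 * C))| + (1 - 2 * Real.log q0)) * Z))
      = Real.exp (-|Real.log (1 / (4 * C))| * Z) * Real.exp (-(1 - 2 * Real.log q0) * Z) := by
        rw [← Real.exp_add]; congr 1; ring
    _ ≤ 1 / (4 * C) * PN ^ 2 := mul_le_mul h11 h8 (Real.exp_pos _).le hcc.le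

/-- Lower bound for the upper tail of the volume of the largest cluster. -/
theorem vol_low (h : ArSharp) : ∃ c2 K2 : ℝ, 0 < c2 ∧ 0 < K2 ∧ ∀ n : ℕ, 1 ≤ n → ∀ x : ℝ, 1 ≤ x →
    x ≤ c2 * (n : ℝ) ^ (5/48 : ℝ) → Real.exp (-(K2 * x ^ (96/5 : ℝ))) ≤
      Pr P (boxE n) (Big (x * (n : ℝ) ^ (91/48 : ℝ)) n) := by
  obtain ⟨c1, C1, hc1, hC1, har⟩ := h
  obtain ⟨K1, hK1, hlow⟩ := vol_low_scale
  obtain ⟨B, hB⟩ : ∃ B : ℝ, B = 11 * (2 / c1) ^ (48/5 : ℝ) + 40 := ⟨_, rfl⟩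
  have hB0 : 40 ≤ B := by
    rw [hB]
    have : 0 ≤ (2 / c1) ^ (48/5 : ℝ) := by positivity
    linarith
  refine ⟨B ^ (-(5/48) : ℝ), 4 * B ^ 2 * K1, by positivity, by positivity, ?_⟩
  intro n hn x hx hxn
  have hn0 : (0 : ℝ) < n := by exact_mod_cast hn
  obtain ⟨X, hX⟩ : ∃ X : ℝ, X = x ^ (48/5 : ℝ) := ⟨_, rfl⟩
  have hX1 : 1 ≤ X := by rw [hX]; exact Real.one_le_rpow hx (by norm_num)
  have hX2 : x ^ (96/5 : ℝ) = X ^ 2 := by
    rw [hX, ← Real.rpow_natCast, ← Real.rpow_mul (by linarith)]; norm_num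
  rw [hX2]
  obtain ⟨M, hM⟩ : ∃ M : ℝ, M = B * X := ⟨_, rfl⟩
  have hM0 : 0 < M := by rw [hM]; positivity
  have hM1 : 40 ≤ M := by rw [hM]; nlinarith
  have hM2 : 11 * (2 * x / c1) ^ (48/5 : ℝ) ≤ M := by
    rw [hM, hB]
    have h1 : (2 * x / c1) ^ (48/5 : ℝ) = (2 / c1) ^ (48/5 : ℝ) * X := by
      rw [show 2 * x / c1 = 2 / c1 * x by ring, Real.mul_rpow (by positivity) (by linarith), hX]
    rw [h1]
    nlinarith
  have hMn : M ≤ n := by
    have h1 : X ≤ B⁻¹ * n := by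
      calc X = x ^ (48/5 : ℝ) := hX
        _ ≤ (B ^ (-(5/48) : ℝ) * (n : ℝ) ^ (5/48 : ℝ)) ^ (48/5 : ℝ) :=
          Real.rpow_le_rpow (by linarith) hxn (by norm_num)
        _ = B⁻¹ * n := by
          rw [Real.mul_rpow (by positivity) (by positivity), ← Real.rpow_mul (by linarith),
            ← Real.rpow_mul hn0.le, ← Real.rpow_neg_one]
          norm_num
    calc M = B * X := hM
      _ ≤ B * (B⁻¹ * n) := mul_le_mul_of_nonneg_left h1 (by linarith)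
      _ = n := by field_simp
  obtain ⟨a, ha⟩ : ∃ a : ℕ, a = ⌊(n : ℝ) / M⌋₊ := ⟨_, rfl⟩
  have h1M : 1 ≤ (n : ℝ) / M := by rw [le_div_iff₀ hM0]; linarith
  have ha1 : 1 ≤ a := by rw [ha]; exact Nat.one_le_floor_iff _ |>.mpr h1M
  have haR : (1 : ℝ) ≤ a := by exact_mod_cast ha1
  have ha0 : (0 : ℝ) < a := by linarith
  have haM : (a : ℝ) ≤ n / M := by rw [ha]; exact Nat.floor_le (by positivity)
  have haM2 : n / M < a + 1 := by rw [ha]; exact Nat.lt_floor_add_one _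
  have hna : M ≤ n / a := by
    rw [le_div_iff₀ ha0]
    rw [le_div_iff₀ hM0] at haM
    linarith
  have hna2 : (n : ℝ) / a ≤ 2 * M := by
    rw [div_le_iff₀ ha0]
    rw [div_lt_iff₀ hM0] at haM2
    nlinarith
  have h40 : 40 * a ≤ n := by
    rw [le_div_iff₀ ha0] at hna
    have h1 : 40 * (a : ℝ) ≤ n := (mul_le_mul_of_nonneg_right hM1 ha0.le).trans hna
    exact_mod_cast h1
  have key := hlow n a ha1 h40
  refine le_trans ?_ (key.trans (Pr_mono w_ok fun F _ hF => X_big_mono ?_ hF))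
  · refine Real.exp_le_exp.mpr ?_
    have h1 : ((n : ℝ) / a) ^ 2 ≤ (2 * M) ^ 2 := pow_le_pow_left₀ (by positivity) hna2 2
    have h2 : (2 * M) ^ 2 = 4 * B ^ 2 * X ^ 2 := by rw [hM]; ring
    rw [h2] at h1
    have h3 := mul_le_mul_of_nonneg_left h1 hK1.le
    linarith
  · have h1 := (har (11 * a) (by omega)).1
    have h11 : (0 : ℝ) < ((11 * a : ℕ) : ℝ) := by push_cast; linarith
    have h3 : 2 * x / c1 ≤ ((n : ℝ) / ((11 * a : ℕ) : ℝ)) ^ (5/48 : ℝ) := by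
      calc 2 * x / c1 = ((2 * x / c1) ^ (48/5 : ℝ)) ^ (5/48 : ℝ) := by
            rw [← Real.rpow_mul (by positivity)]
            norm_num
        _ ≤ ((n : ℝ) / ((11 * a : ℕ) : ℝ)) ^ (5/48 : ℝ) := by
            refine Real.rpow_le_rpow (by positivity) ?_ (by norm_num)
            rw [le_div_iff₀ h11]
            rw [le_div_iff₀ ha0] at hna
            push_cast
            nlinarith
    rw [Real.div_rpow hn0.le h11.le] at h3
    have h4 : ((11 * a : ℕ) : ℝ) ^ (-(5 / 48 : ℝ)) =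
        (((11 * a : ℕ) : ℝ) ^ (5/48 : ℝ))⁻¹ := Real.rpow_neg h11.le _
    have h5 : (n : ℝ) ^ 2 = (n : ℝ) ^ (91/48 : ℝ) * (n : ℝ) ^ (5/48 : ℝ) := by
      rw [← Real.rpow_add hn0, ← Real.rpow_natCast]; norm_num
    have h6 : 2 * x ≤ c1 * ((n : ℝ) ^ (5/48 : ℝ) * (((11 * a : ℕ) : ℝ) ^ (5/48 : ℝ))⁻¹) := by
      rw [div_le_iff₀ hc1, div_eq_mul_inv] at h3
      linarith
    have h7 : c1 * ((n : ℝ) ^ (5/48 : ℝ) * (((11 * a : ℕ) : ℝ) ^ (5/48 : ℝ))⁻¹) ≤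
        (n : ℝ) ^ (5/48 : ℝ) * ar (11 * a) := by
      rw [h4] at h1
      have := mul_le_mul_of_nonneg_left h1 (Real.rpow_nonneg hn0.le (5/48 : ℝ))
      linarith
    have h8 : 2 * x ≤ (n : ℝ) ^ (5/48 : ℝ) * ar (11 * a) := h6.trans h7
    have h9 := mul_le_mul_of_nonneg_left h8 (Real.rpow_nonneg hn0.le (91/48 : ℝ))
    rw [h5]
    linarith

end TH992.V
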