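import Pool.Agent.TH992.T.Tail3
import Pool.Agent.H160R2.CV.Sharp

/-!
Number of vertices with an arm to distance `s / 5` in a box of side `s`.
-/

set_option autoImplicit false

namespace TH992.V

open H974 Finset Filter Topology TH992.T
open Pool.Agent.H160R2.CV
open Pool.Agent.H160R2.CV.Quad (bo LA LA_of_far far_of_LA LA_of_reach pr_LA)

/-- The indicator of an arm from `v` to distance `s / 5`. -/
noncomputable def xa (s : ℕ) (v : Vtx) (F : Finset Edg) : ℝ := ind (Far v (s / 5) F)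

theorem far_local {S F : Finset Edg} (hF : F ⊆ S) {v : Vtx} {r s : ℕ} (h : r ≤ s) :
    Far v r F ↔ Far v r (F ∩ (RE (v.1 - s) (v.1 + s) (v.2 - s) (v.2 + s) ∩ S)) := by
  constructor
  · intro h1
    obtain ⟨w, k1, k2, k3⟩ := LA_of_far le_rfl h1
    refine ⟨w, ?_, k3.mono ?_⟩
    · unfold nv
      simp only [Prod.fst_sub, Prod.snd_sub]
      omega
    · rintro e ⟨he1, he2⟩
      rw [mem_coe] at he1 he2 ⊢
      refine mem_inter.mpr ⟨he1, mem_inter.mpr ⟨?_, hF he1⟩⟩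
      unfold bo at he2
      exact RE_sub_RE (by omega) (by omega) (by omega) (by omega) he2
  · exact Far.mono_F inter_subset_left

theorem ar_scale (h : ArSharp) : ∃ C : ℝ, 0 < C ∧ ∀ s : ℕ, 1 ≤ s →
    ar (s / 5) ≤ C * (s : ℝ) ^ (-(5/48) : ℝ) := by
  obtain ⟨a, A, ha, hA, har⟩ := h
  refine ⟨10 * A + 5, by positivity, fun s hs => ?_⟩
  have hs0 : (0 : ℝ) < s := by exact_mod_cast hs
  have hp : 0 < (s : ℝ) ^ (-(5/48) : ℝ) := Real.rpow_pos_of_pos hs0 _
  rcases Nat.lt_or_ge s 5 with h5 | h5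
  · have e : s / 5 = 0 := Nat.div_eq_of_lt h5
    rw [e, ratio_zero]
    have h1 : (1 : ℝ) / 5 ≤ (s : ℝ) ^ (-(5/48) : ℝ) := by
      calc (1 : ℝ) / 5 = (5 : ℝ) ^ (-1 : ℝ) := by rw [Real.rpow_neg_one]; norm_num
        _ ≤ (5 : ℝ) ^ (-(5/48) : ℝ) :=
          Real.rpow_le_rpow_of_exponent_le (by norm_num) (by norm_num)
        _ ≤ (s : ℝ) ^ (-(5/48) : ℝ) := by
          refine Real.rpow_le_rpow_of_nonpos hs0 ?_ (by norm_num)
          exact_mod_cast h5.le
    have h2 : 0 ≤ 10 * A * (s : ℝ) ^ (-(5/48) : ℝ) := by positivity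
    linarith
  · have h1 : 1 ≤ s / 5 := by omega
    have h2 : s ≤ 10 * (s / 5) := by omega
    have h3 : (s : ℝ) ≤ 10 * ((s / 5 : ℕ) : ℝ) := by exact_mod_cast h2
    have h4 : (0 : ℝ) < ((s / 5 : ℕ) : ℝ) := by exact_mod_cast h1
    refine (har (s / 5) h1).2.trans ?_
    have h5 : ((s / 5 : ℕ) : ℝ) ^ (-(5 / 48 : ℝ)) ≤ 10 * (s : ℝ) ^ (-(5/48) : ℝ) := by
      calc ((s / 5 : ℕ) : ℝ) ^ (-(5 / 48 : ℝ)) ≤ ((s : ℝ) / 10) ^ (-(5 / 48 : ℝ)) :=
            Real.rpow_le_rpow_of_nonpos (by positivity) (by linarith) (by norm_num)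
        _ = (s : ℝ) ^ (-(5/48) : ℝ) * (10 : ℝ) ^ (5/48 : ℝ) := by
            rw [Real.div_rpow hs0.le (by norm_num), Real.rpow_neg (by norm_num : (0:ℝ) ≤ 10),
              div_inv_eq_mul]
        _ ≤ (s : ℝ) ^ (-(5/48) : ℝ) * 10 := by
            refine mul_le_mul_of_nonneg_left ?_ hp.le
            calc (10 : ℝ) ^ (5/48 : ℝ) ≤ (10 : ℝ) ^ (1 : ℝ) :=
                  Real.rpow_le_rpow_of_exponent_le (by norm_num) (by norm_num)
              _ = 10 := Real.rpow_one _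
        _ = _ := by ring
    have h6 := mul_le_mul_of_nonneg_left h5 hA.le
    linarith

/-- the family -/
theorem xa_fam (h : ArSharp) : ∃ C0 : ℝ, 0 < C0 ∧ ∀ S : Finset Edg,
    Fam (5/48) 1 C0 P S xa := by
  obtain ⟨C, hC, har⟩ := ar_scale h
  refine ⟨C, hC, fun S => ?_⟩
  exact {
    ok := w_ok
    nonneg := fun s v F => ind_nonneg _
    le := fun s v F => ind_le_one _
    anti := fun s s' v F h => ind_mono (Far.mono_r (Nat.div_le_div_right h))
    loc := fun s v F hF => by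
      unfold xa
      rw [propext (far_local hF (Nat.div_le_self s 5))]
    mean := fun s hs b c => by
      have hs0 : (0 : ℝ) < s := by exact_mod_cast hs
      have h1 : ∀ v ∈ Bq b c s, Ex P S (xa s v) ≤ C * (s : ℝ) ^ (-(5/48) : ℝ) := by
        intro v _
        refine le_trans ?_ (har s hs)
        refine le_trans ?_ (pr_LA S v (s / 5))
        exact Pr_mono w_ok fun F _ hF => LA_of_far le_rfl hF
      refine (sum_le_sum h1).trans ?_
      rw [sum_const, card_Bq, nsmul_eq_mul]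
      push_cast
      have e : (s : ℝ) ^ (2 - 5/48 : ℝ) = (s : ℝ) * s * (s : ℝ) ^ (-(5/48) : ℝ) := by
        rw [show (2 - 5/48 : ℝ) = 1 + (1 + (-(5/48))) by norm_num, Real.rpow_add hs0,
          Real.rpow_add hs0, Real.rpow_one]
        ring
      rw [e]
      refine le_of_eq ?_
      ring }

/-- A large cluster fills a box at some scale. -/
theorem big_box {N : ℝ} (hN : 4 < N) {n : ℕ} {F : Finset Edg} (h : Big N n F) :
    ∃ j : ℕ, 2 ^ j ≤ n ∧ ∃ i k : ℤ, (-((n / 2 ^ j : ℕ) + 1 : ℤ) ≤ i ∧ i ≤ ((n / 2 ^ j : ℕ) : ℤ)) ∧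
      (-((n / 2 ^ j : ℕ) + 1 : ℤ) ≤ k ∧ k ≤ ((n / 2 ^ j : ℕ) : ℤ)) ∧
      N ≤ Nb xa (5 * 2 ^ j) (i * 2 ^ j) (k * 2 ^ j) F := by
  classical
  obtain ⟨v, hv, T, hT, hr⟩ := h
  have hsub : T ⊆ bx n := fun u hu => w_reach_bx hv (hr u hu)
  have hconn : ∀ u ∈ T, ∀ w ∈ T, Reach (↑F) u w := fun u hu w hw =>
    ((hr u hu).symm.trans (hr w hw)).mono Set.inter_subset_left
  have hne : T.Nonempty := by
    rw [nonempty_iff_ne_empty]
    rintro rfl
    simp at hT
    linarith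
  obtain ⟨p1, hp1, hp1'⟩ := exists_min_image T (fun u => u.1) hne
  obtain ⟨p2, hp2, hp2'⟩ := exists_max_image T (fun u => u.1) hne
  obtain ⟨p3, hp3, hp3'⟩ := exists_min_image T (fun u => u.2) hne
  obtain ⟨p4, hp4, hp4'⟩ := exists_max_image T (fun u => u.2) hne
  obtain ⟨D, hD⟩ : ∃ D : ℕ, (D : ℤ) = max (p2.1 - p1.1) (p4.2 - p3.2) := by
    have h1 := hp1' p2 hp2
    have h2 := hp3' p4 hp4
    exact ⟨(max (p2.1 - p1.1) (p4.2 - p3.2)).toNat, by
      rw [Int.toNat_of_nonneg]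
      exact le_max_of_le_left (by linarith)⟩
  have hD1 : p2.1 - p1.1 ≤ D := by rw [hD]; exact le_max_left _ _
  have hD2 : p4.2 - p3.2 ≤ D := by rw [hD]; exact le_max_right _ _
  have hDor : p2.1 - p1.1 = D ∨ p4.2 - p3.2 = D := by
    rw [hD]
    rcases max_choice (p2.1 - p1.1) (p4.2 - p3.2) with h | h
    · exact Or.inl h.symm
    · exact Or.inr h.symm
  have hD3 : 2 ≤ D := by
    by_contra hcon
    have hc : T ⊆ Finset.Icc p1.1 (p1.1 + 1) ×ˢ Finset.Icc p3.2 (p3.2 + 1) := by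
      intro u hu
      rw [mem_product, mem_Icc, mem_Icc]
      have a1 := hp1' u hu
      have a2 := hp2' u hu
      have a3 := hp3' u hu
      have a4 := hp4' u hu
      omega
    have h1 := card_le_card hc
    rw [card_product, Int.card_Icc, Int.card_Icc] at h1
    have h2 : (p1.1 + 1 + 1 - p1.1).toNat = 2 := by omega
    have h3 : (p3.2 + 1 + 1 - p3.2).toNat = 2 := by omega
    rw [h2, h3] at h1
    have h4 : (T.card : ℝ) ≤ 4 := by exact_mod_cast h1
    linarith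
  have hb1 := hsub hp1
  have hb2 := hsub hp2
  have hb3 := hsub hp3
  have hb4 := hsub hp4
  rw [w_mem_bx] at hb1 hb2 hb3 hb4
  have hDn : D ≤ 2 * n := by omega
  obtain ⟨j, hj⟩ : ∃ j : ℕ, j = Nat.log 2 (D / 2) := ⟨_, rfl⟩
  have hD4 : D / 2 ≠ 0 := by omega
  have hj1 : 2 ^ j ≤ D / 2 := by rw [hj]; exact Nat.pow_log_le_self 2 hD4
  have hj2 : D / 2 < 2 ^ (j + 1) := by rw [hj]; exact Nat.lt_pow_succ_log_self (by norm_num) _
  obtain ⟨s, hs⟩ : ∃ s : ℕ, s = 2 ^ j := ⟨_, rfl⟩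
  have hs1 : 1 ≤ s := by rw [hs]; exact Nat.one_le_two_pow
  rw [pow_succ, ← hs] at hj2
  rw [← hs] at hj1
  have hsZ : (0 : ℤ) < s := by exact_mod_cast hs1
  have hcast : ((2 : ℤ) ^ j) = s := by rw [hs]; push_cast; rfl
  have hk : n < (n / s + 1) * s := by
    have := Nat.lt_mul_div_succ n (show 0 < s by omega)
    rw [mul_comm] at this
    exact this
  have hkZ : (n : ℤ) < ((n / s : ℕ) + 1) * s := by exact_mod_cast hk
  have hidx : ∀ c : ℤ, -(n:ℤ) ≤ c → c ≤ n →
      -((n / s : ℕ) + 1 : ℤ) ≤ c / s ∧ c / s ≤ ((n / s : ℕ) : ℤ) := by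
    intro c h1 h2
    constructor
    · rw [Int.le_ediv_iff_mul_le hsZ]
      linarith
    · have : c / s < ((n / s : ℕ) : ℤ) + 1 := by
        rw [Int.ediv_lt_iff_lt_mul hsZ]
        linarith
      omega
  refine ⟨j, by rw [← hs]; omega, p1.1 / s, p3.2 / s, ?_, ?_, ?_⟩
  · rw [← hs]; exact hidx _ hb1.1.1 hb1.1.2
  · rw [← hs]; exact hidx _ hb3.2.1 hb3.2.2
  · rw [← hs, hcast]
    have e5 : (5 * s) / 5 = s := by omega
    have hsub2 : T ⊆ Bq (p1.1 / s * s) (p3.2 / s * s) (5 * s) := by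
      intro u hu
      rw [mem_Bq]
      have a1 := hp1' u hu
      have a2 := hp2' u hu
      have a3 := hp3' u hu
      have a4 := hp4' u hu
      have b1 := Int.emod_add_mul_ediv p1.1 s
      have b2 := Int.emod_nonneg p1.1 hsZ.ne'
      have b3 := Int.emod_lt_of_pos p1.1 hsZ
      have b4 := Int.emod_add_mul_ediv p3.2 s
      have b5 := Int.emod_nonneg p3.2 hsZ.ne'
      have b6 := Int.emod_lt_of_pos p3.2 hsZ
      have c1 : p1.1 / s * s = s * (p1.1 / s) := mul_comm _ _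
      have c2 : p3.2 / s * s = s * (p3.2 / s) := mul_comm _ _
      rw [c1, c2]
      push_cast
      omega
    have hfar : ∀ u ∈ T, xa (5 * s) u F = 1 := by
      intro u hu
      unfold xa
      rw [e5]
      apply ind_of
      have a1 := hp1' u hu
      have a2 := hp2' u hu
      have a3 := hp3' u hu
      have a4 := hp4' u hu
      rcases hDor with hd | hd
      · by_cases hc : (s : ℤ) ≤ u.1 - p1.1
        · refine ⟨p1, ?_, hconn u hu p1 hp1⟩
          unfold nv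
          simp only [Prod.fst_sub, Prod.snd_sub]
          omega
        · refine ⟨p2, ?_, hconn u hu p2 hp2⟩
          unfold nv
          simp only [Prod.fst_sub, Prod.snd_sub]
          omega
      · by_cases hc : (s : ℤ) ≤ u.2 - p3.2
        · refine ⟨p3, ?_, hconn u hu p3 hp3⟩
          unfold nv
          simp only [Prod.fst_sub, Prod.snd_sub]
          omega
        · refine ⟨p4, ?_, hconn u hu p4 hp4⟩
          unfold nv
          simp only [Prod.fst_sub, Prod.snd_sub]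
          omega
    calc N ≤ (T.card : ℝ) := hT
      _ = ∑ u ∈ T, xa (5 * s) u F := by
          rw [sum_congr rfl hfar]; simp
      _ ≤ _ := sum_le_sum_of_subset_of_nonneg hsub2 fun _ _ _ => ind_nonneg _

end TH992.V
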