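import Pool.Agent.TH992.V.Up1

/-!
Upper tail of the volume of the largest cluster.
-/

set_option autoImplicit false

namespace TH992.V

open H974 Finset Filter Topology TH992.T
open Pool.Agent.H160R2.CV

/-- `r² exp (- r² / 2) ≤ 8 / r²` -/
theorem sq_exp {r : ℝ} (hr : 0 < r) : r ^ 2 * Real.exp (-(r ^ 2 / 2)) ≤ 8 / r ^ 2 := by
  have h1 := Real.quadratic_le_exp_of_nonneg (x := r ^ 2 / 2) (by positivity)
  have h2 : r ^ 4 / 8 ≤ Real.exp (r ^ 2 / 2) := by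
    have e : (r ^ 2 / 2) ^ 2 / 2 = r ^ 4 / 8 := by ring
    have h3 : 0 ≤ r ^ 2 / 2 := by positivity
    linarith
  rw [Real.exp_neg, le_div_iff₀ (by positivity), ← div_eq_mul_inv, div_mul_eq_mul_div,
    div_le_iff₀ (Real.exp_pos _)]
  nlinarith

theorem geo4 (L : ℕ) : ∑ j ∈ range (L + 1), ((2 : ℝ) ^ j) ^ 2 ≤ 4 / 3 * ((2 : ℝ) ^ L) ^ 2 := by
  induction L with
  | zero => simp; norm_num
  | succ L ih =>
    rw [sum_range_succ]
    have e : ((2 : ℝ) ^ (L + 1)) ^ 2 = 4 * ((2 : ℝ) ^ L) ^ 2 := by ring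
    rw [e]
    linarith

/-- Upper tail of the volume of the largest cluster. -/
theorem vol_up (h : ArSharp) : ∃ l : ℝ, 1 ≤ l ∧ ∀ n : ℕ, 1 ≤ n → ∀ x : ℝ, 0 ≤ x →
    Pr P (boxE n) (Big (x * (n : ℝ) ^ (91/48 : ℝ)) n) ≤
      2000 * Real.exp (-((x / l) ^ (96/5 : ℝ) / 2)) := by
  obtain ⟨C0, hC0, hfam⟩ := xa_fam h
  obtain ⟨l0, hl0, htail⟩ := tail1 (a := 5/48) (C0 := C0) (by norm_num) (by norm_num) 1 hC0.le
  obtain ⟨l1, hl1⟩ : ∃ l1 : ℝ, l1 = max l0 1 := ⟨_, rfl⟩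
  have hl11 : 1 ≤ l1 := by rw [hl1]; exact le_max_right _ _
  have hl10 : l0 ≤ l1 := by rw [hl1]; exact le_max_left _ _
  refine ⟨25 * l1, by linarith, fun n hn x hx => ?_⟩
  have hn0 : (0 : ℝ) < n := by exact_mod_cast hn
  have hn1 : (1 : ℝ) ≤ n := by exact_mod_cast hn
  obtain ⟨y, hy⟩ : ∃ y : ℝ, y = (x / (25 * l1)) ^ (96/5 : ℝ) := ⟨_, rfl⟩
  have hy0 : 0 ≤ y := by rw [hy]; positivity
  rw [← hy]
  rcases le_or_gt y 1 with hy1 | hy1
  · refine (Pr_le_one w_ok _ _).trans ?_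
    have h1 : Real.exp (-(1/2)) ≤ Real.exp (-(y / 2)) := Real.exp_le_exp.mpr (by linarith)
    have h2 : 1 - 1/2 ≤ Real.exp (-(1/2)) := by
      have := Real.add_one_le_exp (-(1/2) : ℝ)
      linarith
    linarith
  obtain ⟨N, hN⟩ : ∃ N : ℝ, N = x * (n : ℝ) ^ (91/48 : ℝ) := ⟨_, rfl⟩
  rw [← hN]
  have hx25 : 25 < x := by
    have h1 : 1 < x / (25 * l1) := by
      by_contra hcon
      push Not at hcon
      have : y ≤ 1 := by
        rw [hy]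
        exact Real.rpow_le_one (by positivity) hcon (by norm_num)
      linarith
    rw [lt_div_iff₀ (by positivity)] at h1
    nlinarith
  have hNbig : 4 < N := by
    rw [hN]
    have h1 : (1 : ℝ) ≤ (n : ℝ) ^ (91/48 : ℝ) := Real.one_le_rpow hn1 (by norm_num)
    nlinarith
  -- index set
  obtain ⟨L, hL⟩ : ∃ L : ℕ, L = Nat.log 2 n := ⟨_, rfl⟩
  have hL1 : 2 ^ L ≤ n := by rw [hL]; exact Nat.pow_log_le_self 2 (by omega)
  have hLj : ∀ j : ℕ, 2 ^ j ≤ n → j ∈ range (L + 1) := by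
    intro j hj
    rw [mem_range, hL]
    have := Nat.le_log_of_pow_le (by norm_num : 1 < 2) hj
    omega
  obtain ⟨J, hJ⟩ : ∃ J : ℕ → Finset (ℤ × ℤ), J = fun j =>
    Finset.Icc (-((n / 2 ^ j : ℕ) + 1 : ℤ)) ((n / 2 ^ j : ℕ) : ℤ) ×ˢ
      Finset.Icc (-((n / 2 ^ j : ℕ) + 1 : ℤ)) ((n / 2 ^ j : ℕ) : ℤ) := ⟨_, rfl⟩
  have hunion : Pr P (boxE n) (Big N n) ≤ ∑ j ∈ range (L + 1), ∑ q ∈ J j,
      Pr P (boxE n) (fun F => N ≤ Nb xa (5 * 2 ^ j) (q.1 * 2 ^ j) (q.2 * 2 ^ j) F) := by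
    have e : ∑ j ∈ range (L + 1), ∑ q ∈ J j,
      Pr P (boxE n) (fun F => N ≤ Nb xa (5 * 2 ^ j) (q.1 * 2 ^ j) (q.2 * 2 ^ j) F) =
      Ex P (boxE n) (fun F => ∑ j ∈ range (L + 1), ∑ q ∈ J j,
        ind (N ≤ Nb xa (5 * 2 ^ j) (q.1 * 2 ^ j) (q.2 * 2 ^ j) F)) := by
      rw [Ex_sum]
      refine sum_congr rfl fun j _ => ?_
      rw [Ex_sum]
      rfl
    rw [e]
    unfold Pr
    refine Ex_mono w_ok fun F _ => ?_
    by_cases hB : Big N n F
    · rw [ind_of hB]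
      obtain ⟨j, hj, i, k, hi, hk, hle⟩ := big_box hNbig hB
      have h1 : ind (N ≤ Nb xa (5 * 2 ^ j) (i * 2 ^ j) (k * 2 ^ j) F) ≤
          ∑ q ∈ J j, ind (N ≤ Nb xa (5 * 2 ^ j) (q.1 * 2 ^ j) (q.2 * 2 ^ j) F) :=
        single_le_sum (f := fun q : ℤ × ℤ =>
          ind (N ≤ Nb xa (5 * 2 ^ j) (q.1 * 2 ^ j) (q.2 * 2 ^ j) F))
          (fun _ _ => ind_nonneg _) (a := (i, k)) (by
            rw [hJ]
            simp only [mem_product, mem_Icc]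
            exact ⟨hi, hk⟩)
      have h2 : ∑ q ∈ J j, ind (N ≤ Nb xa (5 * 2 ^ j) (q.1 * 2 ^ j) (q.2 * 2 ^ j) F) ≤
          ∑ j ∈ range (L + 1), ∑ q ∈ J j,
            ind (N ≤ Nb xa (5 * 2 ^ j) (q.1 * 2 ^ j) (q.2 * 2 ^ j) F) :=
        single_le_sum (f := fun j => ∑ q ∈ J j,
            ind (N ≤ Nb xa (5 * 2 ^ j) (q.1 * 2 ^ j) (q.2 * 2 ^ j) F))
          (fun _ _ => sum_nonneg fun _ _ => ind_nonneg _) (hLj j hj)
      rw [ind_of hle] at h1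
      exact h1.trans h2
    · rw [ind_not_of hB]
      exact sum_nonneg fun _ _ => sum_nonneg fun _ _ => ind_nonneg _
  refine hunion.trans ?_
  -- each term
  have hterm : ∀ j ∈ range (L + 1), ∑ q ∈ J j,
      Pr P (boxE n) (fun F => N ≤ Nb xa (5 * 2 ^ j) (q.1 * 2 ^ j) (q.2 * 2 ^ j) F) ≤
      (1152 * Real.exp (-(y / 2)) / (n : ℝ) ^ 2) * ((2 : ℝ) ^ j) ^ 2 := by
    intro j hj
    rw [mem_range] at hj
    have hjn : 2 ^ j ≤ n := (Nat.pow_le_pow_right (by norm_num) (by omega)).trans hL1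
    obtain ⟨s, hs⟩ : ∃ s : ℕ, s = 2 ^ j := ⟨_, rfl⟩
    have hs1 : 1 ≤ s := by rw [hs]; exact Nat.one_le_two_pow
    have hsn : s ≤ n := by rw [hs]; exact hjn
    have hs0 : (0 : ℝ) < s := by exact_mod_cast hs1
    have hsr : ((2 : ℝ) ^ j) = s := by rw [hs]; push_cast; rfl
    rw [hsr, ← hs]
    obtain ⟨r, hr⟩ : ∃ r : ℝ, r = (n : ℝ) / s := ⟨_, rfl⟩
    have hr1 : 1 ≤ r := by
      rw [hr, le_div_iff₀ hs0, one_mul]; exact_mod_cast hsn
    have hr0 : 0 < r := by linarith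
    -- the tail
    have hone : ∀ q ∈ J j, Pr P (boxE n)
        (fun F => N ≤ Nb xa (5 * s) (q.1 * 2 ^ j) (q.2 * 2 ^ j) F) ≤
        9 * Real.exp (-(y * r ^ 2)) := by
      intro q _
      have h5 : (0 : ℝ) < ((5 * s : ℕ) : ℝ) := by push_cast; positivity
      have key := htail P (boxE n) xa (hfam (boxE n)) (5 * s) (q.1 * 2 ^ j) (q.2 * 2 ^ j)
        (N / ((5 * s : ℕ) : ℝ) ^ (2 - 5/48 : ℝ)) (by omega) (by rw [hN]; positivity)
      have e1 : Pr P (boxE n) (fun F => N ≤ Nb xa (5 * s) (q.1 * 2 ^ j) (q.2 * 2 ^ j) F) ≤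
          Pr P (boxE n) (fun F => N / ((5 * s : ℕ) : ℝ) ^ (2 - 5/48 : ℝ) ≤
            Yb (5/48) xa (5 * s) (q.1 * 2 ^ j) (q.2 * 2 ^ j) F) := by
        refine Pr_mono w_ok fun F _ hF => ?_
        unfold Yb
        exact div_le_div_of_nonneg_right hF (Real.rpow_nonneg h5.le _)
      refine e1.trans (key.trans (mul_le_mul_of_nonneg_left (Real.exp_le_exp.mpr ?_)
        (by norm_num)))
      have e2 : (2 / (5/48) : ℝ) = 2 * (48/5) := by norm_num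
      have h6 : x / (25 * l1) * r ^ (91/48 : ℝ) ≤
          N / ((5 * s : ℕ) : ℝ) ^ (2 - 5/48 : ℝ) / l0 := by
        rw [hN, show (2 - 5/48 : ℝ) = 91/48 by norm_num]
        have h7 : ((5 * s : ℕ) : ℝ) ^ (91/48 : ℝ) ≤ 25 * (s : ℝ) ^ (91/48 : ℝ) := by
          push_cast
          rw [Real.mul_rpow (by norm_num) hs0.le]
          refine mul_le_mul_of_nonneg_right ?_ (Real.rpow_nonneg hs0.le _)
          calc (5 : ℝ) ^ (91/48 : ℝ) ≤ (5 : ℝ) ^ (2 : ℝ) :=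
                Real.rpow_le_rpow_of_exponent_le (by norm_num) (by norm_num)
            _ = 25 := by norm_num
        have h8 : 0 < ((5 * s : ℕ) : ℝ) ^ (91/48 : ℝ) := Real.rpow_pos_of_pos h5 _
        have h9 : 0 < (s : ℝ) ^ (91/48 : ℝ) := Real.rpow_pos_of_pos hs0 _
        have h10 : 0 < (n : ℝ) ^ (91/48 : ℝ) := Real.rpow_pos_of_pos hn0 _
        rw [hr, Real.div_rpow hn0.le hs0.le, div_div, div_mul_div_comm,
          div_le_div_iff₀ (by positivity) (by positivity)]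
        have h11 : ((5 * s : ℕ) : ℝ) ^ (91/48 : ℝ) * l0 ≤ 25 * (s : ℝ) ^ (91/48 : ℝ) * l1 :=
          mul_le_mul h7 hl10 hl0.le (by positivity)
        have h12 : 0 ≤ x * (n : ℝ) ^ (91/48 : ℝ) := by positivity
        nlinarith
      have h13 : y * r ^ 2 ≤
          (N / ((5 * s : ℕ) : ℝ) ^ (2 - 5/48 : ℝ) / l0) ^ (2 / (5/48) : ℝ) := by
        rw [show (2 / (5/48) : ℝ) = 96/5 by norm_num]
        refine le_trans ?_ (Real.rpow_le_rpow (by positivity) h6 (by norm_num))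
        rw [Real.mul_rpow (by positivity) (by positivity), ← hy, ← Real.rpow_mul hr0.le]
        refine mul_le_mul_of_nonneg_left ?_ hy0
        rw [← Real.rpow_natCast]
        exact Real.rpow_le_rpow_of_exponent_le hr1 (by norm_num)
      linarith
    refine (sum_le_sum hone).trans ?_
    rw [sum_const, nsmul_eq_mul]
    have hcard : ((J j).card : ℝ) ≤ 16 * r ^ 2 := by
      rw [hJ]
      simp only [card_product, Int.card_Icc]
      rw [← hs]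
      have e3 : (((n / s : ℕ) : ℤ) + 1 - -(((n / s : ℕ) : ℤ) + 1)).toNat = 2 * (n / s) + 2 := by
        omega
      rw [e3]
      have h14 : 1 ≤ n / s := (Nat.one_le_div_iff hs1).mpr hsn
      have h15 : ((n / s : ℕ) : ℝ) ≤ r := by rw [hr]; exact Nat.cast_div_le
      have h16 : (1 : ℝ) ≤ ((n / s : ℕ) : ℝ) := by exact_mod_cast h14
      push_cast
      nlinarith
    have h17 : Real.exp (-(y * r ^ 2)) ≤ Real.exp (-(y / 2)) * Real.exp (-(r ^ 2 / 2)) := by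
      rw [← Real.exp_add]
      refine Real.exp_le_exp.mpr ?_
      have hr2 : 1 ≤ r ^ 2 := one_le_pow₀ hr1
      nlinarith
    have h18 := sq_exp hr0
    have h19 : (8 : ℝ) / r ^ 2 = 8 * (s : ℝ) ^ 2 / (n : ℝ) ^ 2 := by
      rw [hr]; field_simp
    rw [h19] at h18
    calc ((J j).card : ℝ) * (9 * Real.exp (-(y * r ^ 2)))
        ≤ (16 * r ^ 2) * (9 * (Real.exp (-(y / 2)) * Real.exp (-(r ^ 2 / 2)))) := by
          refine mul_le_mul hcard (mul_le_mul_of_nonneg_left h17 (by norm_num)) (by positivity)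
            (by positivity)
      _ = (144 * Real.exp (-(y / 2))) * (r ^ 2 * Real.exp (-(r ^ 2 / 2))) := by ring
      _ ≤ (144 * Real.exp (-(y / 2))) * (8 * (s : ℝ) ^ 2 / (n : ℝ) ^ 2) :=
          mul_le_mul_of_nonneg_left h18 (by positivity)
      _ = _ := by ring
  refine (sum_le_sum hterm).trans ?_
  rw [← mul_sum]
  have h20 : ∑ j ∈ range (L + 1), ((2 : ℝ) ^ j) ^ 2 ≤ 4 / 3 * (n : ℝ) ^ 2 := by
    refine (geo4 L).trans ?_
    have h21 : ((2 : ℝ) ^ L) ≤ n := by exact_mod_cast hL1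
    have h22 : ((2 : ℝ) ^ L) ^ 2 ≤ (n : ℝ) ^ 2 := pow_le_pow_left₀ (by positivity) h21 2
    linarith
  calc (1152 * Real.exp (-(y / 2)) / (n : ℝ) ^ 2) * ∑ j ∈ range (L + 1), ((2 : ℝ) ^ j) ^ 2
      ≤ (1152 * Real.exp (-(y / 2)) / (n : ℝ) ^ 2) * (4 / 3 * (n : ℝ) ^ 2) :=
        mul_le_mul_of_nonneg_left h20 (by positivity)
    _ = 1536 * Real.exp (-(y / 2)) := by field_simp; ring
    _ ≤ 2000 * Real.exp (-(y / 2)) := by
        have := Real.exp_pos (-(y / 2))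
        linarith

end TH992.V
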